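import Mathlib

namespace Pool.Agent.Helper20

open Submodule LinearMap

/-- Every endomorphism of a finite-dimensional vector space has an invertible inner inverse. -/
theorem exists_unit_inner {F W : Type*} [Field F] [AddCommGroup W] [Module F W]
    [FiniteDimensional F W] (f : Module.End F W) :
    ∃ u u' : Module.End F W, u * u' = 1 ∧ u' * u = 1 ∧ f * u * f = f := by
  classical
  obtain ⟨C, hC⟩ := Submodule.exists_isCompl (LinearMap.ker f)
  obtain ⟨D, hD⟩ := Submodule.exists_isCompl (LinearMap.range f)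
  have h1 : Module.finrank F (LinearMap.range f) + Module.finrank F (LinearMap.ker f)
      = Module.finrank F W := LinearMap.finrank_range_add_finrank_ker f
  have h2 : Module.finrank F (LinearMap.range f) + Module.finrank F D
      = Module.finrank F W := Submodule.finrank_add_eq_of_isCompl hD
  have h3 : Module.finrank F D = Module.finrank F (LinearMap.ker f) := by omega
  let e : D ≃ₗ[F] (LinearMap.ker f) := LinearEquiv.ofFinrankEq _ _ h3
  let g : (LinearMap.range f) ≃ₗ[F] C :=
    f.quotKerEquivRange.symm ≪≫ₗ Submodule.quotientEquivOfIsCompl (LinearMap.ker f) C hC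
  let U : W ≃ₗ[F] W :=
    (Submodule.prodEquivOfIsCompl (LinearMap.range f) D hD).symm ≪≫ₗ
      (g.prodCongr e) ≪≫ₗ (Submodule.prodEquivOfIsCompl C (LinearMap.ker f) hC.symm)
  refine ⟨U.toLinearMap, U.symm.toLinearMap, ?_, ?_, ?_⟩
  · ext x; simp
  · ext x; simp
  · ext x
    have hx : U (f x) = (g ⟨f x, LinearMap.mem_range_self f x⟩ : W) := by
      have : (Submodule.prodEquivOfIsCompl (LinearMap.range f) D hD).symm (f x)
          = (⟨f x, LinearMap.mem_range_self f x⟩, 0) := by
        rw [LinearEquiv.symm_apply_eq]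
        simp
      simp [U, this]
    have hg : (g ⟨f x, LinearMap.mem_range_self f x⟩ : W) - x ∈ LinearMap.ker f := by
      have h4 : f.quotKerEquivRange.symm ⟨f x, LinearMap.mem_range_self f x⟩
          = Submodule.Quotient.mk x := by
        rw [LinearEquiv.symm_apply_eq]
        ext
        simp [LinearMap.quotKerEquivRange_apply_mk]
      have h5 : (g ⟨f x, LinearMap.mem_range_self f x⟩)
          = Submodule.quotientEquivOfIsCompl (LinearMap.ker f) C hC (Submodule.Quotient.mk x) := by
        simp only [g, LinearEquiv.trans_apply, h4]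
      have h6 : (Submodule.Quotient.mk (g ⟨f x, LinearMap.mem_range_self f x⟩ : W) :
          W ⧸ LinearMap.ker f) = Submodule.Quotient.mk x := by
        rw [← Submodule.quotientEquivOfIsCompl_symm_apply _ _ hC, h5,
          LinearEquiv.symm_apply_apply]
      exact (Submodule.Quotient.eq _).1 h6
    have : f (U (f x)) = f x := by
      rw [hx]
      have := LinearMap.mem_ker.1 hg
      rw [map_sub, sub_eq_zero] at this
      exact this
    simpa using this

/-! ### Operators of bounded rank attached to a directed family of subspaces -/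

section Germ

variable {F : Type*} [Field F] {V : ℕ → Type*} [∀ n, AddCommGroup (V n)] [∀ n, Module F (V n)]
  (B : ∀ n, LinearMap.BilinForm F (V n)) {D : Type*} (T : D → ∀ n, Submodule F (V n))

/-- `x n` has range in `T d n` and kills the orthogonal of `T d n`, for some `d` and all large `n`. -/
def Small (x : ∀ n, Module.End F (V n)) : Prop :=
  ∃ d N, ∀ n, N ≤ n → (∀ v, x n v ∈ T d n) ∧ ∀ v, (∀ t ∈ T d n, B n t v = 0) → x n v = 0

/-- `c` and its adjoint map each `T d` into some `T d'` for large `n`. -/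
def Adm (c : ∀ n, Module.End F (V n)) : Prop :=
  ∀ d, ∃ d' N, ∀ n, N ≤ n → (∀ t ∈ T d n, c n t ∈ T d' n) ∧
    ∀ v, (∀ t ∈ T d' n, B n t v = 0) → ∀ t ∈ T d n, B n t (c n v) = 0

variable {B T}

theorem Small.adm {x : ∀ n, Module.End F (V n)} (hx : Small B T x) : Adm B T x := by
  intro d
  obtain ⟨d', N, h⟩ := hx
  refine ⟨d', N, fun n hn => ⟨fun t _ => (h n hn).1 t, fun v hv t _ => ?_⟩⟩
  rw [(h n hn).2 v hv, map_zero]

theorem adm_one : Adm B T (1 : ∀ n, Module.End F (V n)) := by
  intro d
  exact ⟨d, 0, fun n _ => ⟨fun t ht => by simpa using ht, fun v hv t ht => by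
    simpa using hv t ht⟩⟩

theorem Adm.add (hdir : ∀ d d', ∃ d'', ∀ n, T d n ≤ T d'' n ∧ T d' n ≤ T d'' n)
    {c e : ∀ n, Module.End F (V n)} (hc : Adm B T c) (he : Adm B T e) : Adm B T (c + e) := by
  intro d
  obtain ⟨d1, N1, h1⟩ := hc d
  obtain ⟨d2, N2, h2⟩ := he d
  obtain ⟨d3, h3⟩ := hdir d1 d2
  refine ⟨d3, max N1 N2, fun n hn => ?_⟩
  have hn1 := h1 n (le_trans (le_max_left _ _) hn)
  have hn2 := h2 n (le_trans (le_max_right _ _) hn)
  refine ⟨fun t ht => ?_, fun v hv t ht => ?_⟩
  · simp only [Pi.add_apply, LinearMap.add_apply]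
    exact add_mem ((h3 n).1 (hn1.1 t ht)) ((h3 n).2 (hn2.1 t ht))
  · simp only [Pi.add_apply, LinearMap.add_apply, map_add]
    rw [hn1.2 v (fun s hs => hv s ((h3 n).1 hs)) t ht,
      hn2.2 v (fun s hs => hv s ((h3 n).2 hs)) t ht, add_zero]

theorem Adm.neg {c : ∀ n, Module.End F (V n)} (hc : Adm B T c) : Adm B T (-c) := by
  intro d
  obtain ⟨d1, N1, h1⟩ := hc d
  refine ⟨d1, N1, fun n hn => ⟨fun t ht => ?_, fun v hv t ht => ?_⟩⟩
  · simpa using (h1 n hn).1 t ht
  · simpa using (h1 n hn).2 v hv t ht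

theorem Adm.mul (hdir : ∀ d d', ∃ d'', ∀ n, T d n ≤ T d'' n ∧ T d' n ≤ T d'' n)
    {c e : ∀ n, Module.End F (V n)} (hc : Adm B T c) (he : Adm B T e) : Adm B T (c * e) := by
  intro d
  obtain ⟨d1, N1, h1⟩ := he d
  obtain ⟨d2, N2, h2⟩ := hc d1
  obtain ⟨d3, N3, h3⟩ := hc d
  obtain ⟨d4, N4, h4⟩ := he d3
  obtain ⟨d5, h5⟩ := hdir d2 d4
  refine ⟨d5, max (max N1 N2) (max N3 N4), fun n hn => ?_⟩
  have hn1 := h1 n (le_trans (le_trans (le_max_left _ _) (le_max_left _ _)) hn)
  have hn2 := h2 n (le_trans (le_trans (le_max_right _ _) (le_max_left _ _)) hn)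
  have hn3 := h3 n (le_trans (le_trans (le_max_left _ _) (le_max_right _ _)) hn)
  have hn4 := h4 n (le_trans (le_trans (le_max_right _ _) (le_max_right _ _)) hn)
  refine ⟨fun t ht => ?_, fun v hv t ht => ?_⟩
  · exact (h5 n).1 (hn2.1 _ (hn1.1 t ht))
  · exact hn3.2 _ (hn4.2 v (fun s hs => hv s ((h5 n).2 hs))) t ht

theorem Small.add (hdir : ∀ d d', ∃ d'', ∀ n, T d n ≤ T d'' n ∧ T d' n ≤ T d'' n)
    {c e : ∀ n, Module.End F (V n)} (hc : Small B T c) (he : Small B T e) :
    Small B T (c + e) := by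
  obtain ⟨d1, N1, h1⟩ := hc
  obtain ⟨d2, N2, h2⟩ := he
  obtain ⟨d3, h3⟩ := hdir d1 d2
  refine ⟨d3, max N1 N2, fun n hn => ?_⟩
  have hn1 := h1 n (le_trans (le_max_left _ _) hn)
  have hn2 := h2 n (le_trans (le_max_right _ _) hn)
  refine ⟨fun v => ?_, fun v hv => ?_⟩
  · simp only [Pi.add_apply, LinearMap.add_apply]
    exact add_mem ((h3 n).1 (hn1.1 v)) ((h3 n).2 (hn2.1 v))
  · simp only [Pi.add_apply, LinearMap.add_apply]
    rw [hn1.2 v (fun s hs => hv s ((h3 n).1 hs)),
      hn2.2 v (fun s hs => hv s ((h3 n).2 hs)), add_zero]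

theorem small_zero [Nonempty D] : Small B T (0 : ∀ n, Module.End F (V n)) := by
  obtain ⟨d⟩ := ‹Nonempty D›
  exact ⟨d, 0, fun n _ => ⟨fun v => by simp, fun v _ => by simp⟩⟩

theorem Small.neg {c : ∀ n, Module.End F (V n)} (hc : Small B T c) : Small B T (-c) := by
  obtain ⟨d1, N1, h1⟩ := hc
  refine ⟨d1, N1, fun n hn => ⟨fun v => ?_, fun v hv => ?_⟩⟩
  · simpa using (h1 n hn).1 v
  · simpa using (h1 n hn).2 v hv

theorem Small.mul_left (hdir : ∀ d d', ∃ d'', ∀ n, T d n ≤ T d'' n ∧ T d' n ≤ T d'' n)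
    {c x : ∀ n, Module.End F (V n)} (hc : Adm B T c) (hx : Small B T x) :
    Small B T (c * x) := by
  obtain ⟨d, N1, h1⟩ := hx
  obtain ⟨d1, N2, h2⟩ := hc d
  obtain ⟨d2, h3⟩ := hdir d d1
  refine ⟨d2, max N1 N2, fun n hn => ?_⟩
  have hn1 := h1 n (le_trans (le_max_left _ _) hn)
  have hn2 := h2 n (le_trans (le_max_right _ _) hn)
  refine ⟨fun v => ?_, fun v hv => ?_⟩
  · exact (h3 n).2 (hn2.1 _ (hn1.1 v))
  · simp only [Pi.mul_apply, Module.End.mul_apply]
    rw [hn1.2 v (fun s hs => hv s ((h3 n).1 hs)), map_zero]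

theorem Small.mul_right (hdir : ∀ d d', ∃ d'', ∀ n, T d n ≤ T d'' n ∧ T d' n ≤ T d'' n)
    {c x : ∀ n, Module.End F (V n)} (hc : Adm B T c) (hx : Small B T x) :
    Small B T (x * c) := by
  obtain ⟨d, N1, h1⟩ := hx
  obtain ⟨d1, N2, h2⟩ := hc d
  obtain ⟨d2, h3⟩ := hdir d d1
  refine ⟨d2, max N1 N2, fun n hn => ?_⟩
  have hn1 := h1 n (le_trans (le_max_left _ _) hn)
  have hn2 := h2 n (le_trans (le_max_right _ _) hn)
  refine ⟨fun v => ?_, fun v hv => ?_⟩
  · exact (h3 n).1 (hn1.1 _)
  · exact hn1.2 _ (hn2.2 v (fun s hs => hv s ((h3 n).2 hs)))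

variable (B T)

/-- The ring of admissible sequences. -/
def admRing (hdir : ∀ d d', ∃ d'', ∀ n, T d n ≤ T d'' n ∧ T d' n ≤ T d'' n) [Nonempty D] :
    Subring (∀ n, Module.End F (V n)) where
  carrier := {c | Adm B T c}
  mul_mem' := fun ha hb => Adm.mul hdir ha hb
  one_mem' := adm_one
  add_mem' := fun ha hb => Adm.add hdir ha hb
  zero_mem' := small_zero.adm
  neg_mem' := fun ha => Adm.neg ha

/-- The ideal of small sequences. -/
def smallIdeal (hdir : ∀ d d', ∃ d'', ∀ n, T d n ≤ T d'' n ∧ T d' n ≤ T d'' n) [Nonempty D] :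
    Ideal (admRing B T hdir) where
  carrier := {c | Small B T (c : ∀ n, Module.End F (V n))}
  add_mem' := fun ha hb => Small.add hdir ha hb
  zero_mem' := small_zero
  smul_mem' := fun c x hx => Small.mul_left hdir c.2 hx

instance smallIdeal_isTwoSided
    (hdir : ∀ d d', ∃ d'', ∀ n, T d n ≤ T d'' n ∧ T d' n ≤ T d'' n) [Nonempty D] :
    (smallIdeal B T hdir).IsTwoSided :=
  ⟨fun {a} b ha => Small.mul_right hdir b.2 ha⟩

variable {B T}

/-- Correction lemma: small elements and `1 + small` have invertible inner inverses in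
`1 + small`. -/
theorem small_unit_inner [∀ n, FiniteDimensional F (V n)]
    (hsymm : ∀ n x y, B n x y = B n y x)
    (hnd : ∀ d, ∃ d' N, ∀ n, N ≤ n → T d n ≤ T d' n ∧
      ∀ t ∈ T d' n, (∀ s ∈ T d' n, B n t s = 0) → t = 0)
    (y : ∀ n, Module.End F (V n)) (hy : Small B T y) (ε : F) :
    ∃ v v' : ∀ n, Module.End F (V n), v * v' = 1 ∧ v' * v = 1 ∧ Small B T (v - 1) ∧
      Small B T (v' - 1) ∧ ((ε = 0 ∨ ε = 1) →
        (fun n => ε • (1 : Module.End F (V n)) + y n) * v * (fun n => ε • (1 : Module.End F (V n)) + y n)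
          = (fun n => ε • (1 : Module.End F (V n)) + y n)) := by
  classical
  obtain ⟨d, N, h⟩ := hy
  obtain ⟨d', N', h'⟩ := hnd d
  -- pointwise construction
  have key : ∀ n, ∃ v v' : Module.End F (V n), v * v' = 1 ∧ v' * v = 1 ∧
      (max N N' ≤ n → (∀ x, (v - 1) x ∈ T d' n) ∧ ∀ x, (∀ t ∈ T d' n, B n t x = 0) → (v - 1) x = 0) ∧
      (max N N' ≤ n → (∀ x, (v' - 1) x ∈ T d' n) ∧ ∀ x, (∀ t ∈ T d' n, B n t x = 0) → (v' - 1) x = 0) ∧
      ((ε = 0 ∨ ε = 1) → (ε • (1 : Module.End F (V n)) + y n) * v * (ε • (1 : Module.End F (V n)) + y n)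
        = (ε • (1 : Module.End F (V n)) + y n)) := by
    intro n
    by_cases hn : max N N' ≤ n
    · have hn1 := h n (le_trans (le_max_left _ _) hn)
      have hn2 := h' n (le_trans (le_max_right _ _) hn)
      set M := T d' n with hM
      have hB : (B n).IsRefl := by
        intro a b hab
        rw [hsymm n b a]; exact hab
      have hres : ((B n).restrict M).Nondegenerate := by
        refine ⟨?_, ?_⟩
        · intro a ha
          ext
          exact hn2.2 a a.2 (fun s hs => ha ⟨s, hs⟩)
        · intro a ha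
          ext
          refine hn2.2 a a.2 (fun s hs => ?_)
          rw [hsymm]
          exact ha ⟨s, hs⟩
      have hcompl : IsCompl M ((B n).orthogonal M) :=
        LinearMap.BilinForm.isCompl_orthogonal_of_restrict_nondegenerate hB hres
      -- projection
      let p : V n →ₗ[F] M := Submodule.projectionOnto M _ hcompl
      let ι : M →ₗ[F] V n := M.subtype
      have hpι : ∀ m : M, p (ι m) = m := fun m => Submodule.projectionOnto_apply_left hcompl m
      have hpz : ∀ x, (∀ t ∈ M, B n t x = 0) → p x = 0 := by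
        intro x hx
        exact (Submodule.projectionOnto_apply_eq_zero_iff hcompl).2 hx
      have hpo : ∀ x, ∀ t ∈ M, B n t (x - ι (p x)) = 0 := by
        intro x
        have : x - ι (p x) ∈ (B n).orthogonal M := by
          rw [← Submodule.projectionOnto_apply_eq_zero_iff hcompl]
          change p (x - ι (p x)) = 0
          rw [map_sub, hpι, sub_self]
        exact this
      let yM : Module.End F M := p ∘ₗ (y n) ∘ₗ ι
      have hyM : ∀ x, y n x = ι (yM (p x)) := by
        intro x
        have e1 : y n x = y n (ι (p x)) := by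
          rw [← sub_eq_zero, ← map_sub]
          exact hn1.2 _ (fun t ht => hpo x t (hn2.1 ht))
        have e2 : ∀ z, ι (p (y n z)) = y n z := by
          intro z
          have := hpι ⟨y n z, hn2.1 (hn1.1 z)⟩
          exact congrArg ι this
        rw [e1]
        exact (e2 _).symm
      obtain ⟨uM, uM', hu1, hu2, hu3⟩ := exists_unit_inner (ε • (1 : Module.End F M) + yM)
      have hu1' : ∀ m, uM (uM' m) = m := fun m => congrArg (fun f => f m) hu1
      have hu2' : ∀ m, uM' (uM m) = m := fun m => congrArg (fun f => f m) hu2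
      have hu3' : ∀ m, (ε • (1 : Module.End F M) + yM) (uM ((ε • (1 : Module.End F M) + yM) m)) =
        (ε • (1 : Module.End F M) + yM) m := fun m => congrArg (fun f => f m) hu3
      let ext (g : Module.End F M) : Module.End F (V n) := ι ∘ₗ g ∘ₗ p + (1 - ι ∘ₗ p)
      have hext : ∀ g x, ext g x = ι (g (p x)) + (x - ι (p x)) := fun g x => rfl
      have hpext : ∀ g x, p (ext g x) = g (p x) := by
        intro g x
        rw [hext, map_add, hpι, map_sub, hpι, sub_self, add_zero]
      refine ⟨ext uM, ext uM', ?_, ?_, ?_, ?_, ?_⟩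
      · ext x
        change ext uM (ext uM' x) = x
        rw [hext, hpext, hu1', hext]
        abel
      · ext x
        change ext uM' (ext uM x) = x
        rw [hext, hpext, hu2', hext]
        abel
      · intro _
        have e : ∀ x, (ext uM - 1 : Module.End F (V n)) x = ι (uM (p x) - p x) := by
          intro x
          rw [LinearMap.sub_apply, hext, map_sub, Module.End.one_apply]
          abel
        refine ⟨fun x => ?_, fun x hx => ?_⟩
        · rw [e]; exact (uM (p x) - p x).2
        · rw [e, hpz x hx]; simp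
      · intro _
        have e : ∀ x, (ext uM' - 1 : Module.End F (V n)) x = ι (uM' (p x) - p x) := by
          intro x
          rw [LinearMap.sub_apply, hext, map_sub, Module.End.one_apply]
          abel
        refine ⟨fun x => ?_, fun x hx => ?_⟩
        · rw [e]; exact (uM' (p x) - p x).2
        · rw [e, hpz x hx]; simp
      · intro hε
        have hεε : ε * ε = ε := by rcases hε with h | h <;> simp [h]
        have e : ∀ x, (ε • (1 : Module.End F (V n)) + y n) x =
            ι ((ε • (1 : Module.End F M) + yM) (p x)) + ε • (x - ι (p x)) := by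
          intro x
          simp only [LinearMap.add_apply, LinearMap.smul_apply, Module.End.one_apply, map_add,
            map_smul, hyM x, smul_sub]
          abel
        have hpe : ∀ x, p ((ε • (1 : Module.End F (V n)) + y n) x) =
            (ε • (1 : Module.End F M) + yM) (p x) := by
          intro x
          rw [e, map_add, hpι, map_smul, map_sub, hpι, sub_self, smul_zero, add_zero]
        ext x
        change (ε • (1 : Module.End F (V n)) + y n) (ext uM ((ε • (1 : Module.End F (V n)) + y n) x))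
          = (ε • (1 : Module.End F (V n)) + y n) x
        rw [e (ext uM _), hpext, hpe, hu3', hext, hpe, e x]
        have : ∀ a b c : V n, a + ε • (b + (a + ε • c - a) - b) = a + ε • c := by
          intro a b c
          have : b + (a + ε • c - a) - b = ε • c := by abel
          rw [this, smul_smul, hεε]
        exact this _ _ _
    · obtain ⟨v, v', h1, h2, h3⟩ := exists_unit_inner (ε • (1 : Module.End F (V n)) + y n)
      exact ⟨v, v', h1, h2, fun h => absurd h hn, fun h => absurd h hn, fun _ => h3⟩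
  choose v v' hv1 hv2 hv3 hv4 hv5 using key
  refine ⟨v, v', ?_, ?_, ?_, ?_, ?_⟩
  · funext n; exact hv1 n
  · funext n; exact hv2 n
  · exact ⟨d', max N N', fun n hn => hv3 n hn⟩
  · exact ⟨d', max N N', fun n hn => hv4 n hn⟩
  · intro hε; funext n; exact hv5 n hε

end Germ

end Pool.Agent.Helper20
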