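import Mathlib
import Pool.Agent.Helper20.URA

namespace Pool.Agent.Helper20

/-! ### The subring of elements congruent to `W ^ j * G g` -/

section Loc

variable {C Q O : Type*} [Ring C] [Ring Q] [CommRing O] (q : C →+* Q) (G : O →+* C) (X : O)
  (U W : C)

theorem loc_comm (hUW : U * W = 1) (hWU : W * U = 1) (hUX : q U = q (G X)) (g : O) :
    Commute (q W) (q (G g)) := by
  have h1 : q (G X) * q (G g) = q (G g) * q (G X) := by
    rw [← map_mul, ← map_mul, mul_comm, map_mul, map_mul]
  have h2 : q W * q (G X) = 1 := by rw [← hUX, ← map_mul, hWU, map_one]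
  have h3 : q (G X) * q W = 1 := by rw [← hUX, ← map_mul, hUW, map_one]
  calc q W * q (G g) = q W * q (G g) * (q (G X) * q W) := by rw [h3, mul_one]
    _ = q W * (q (G g) * q (G X)) * q W := by simp only [mul_assoc]
    _ = q W * (q (G X) * q (G g)) * q W := by rw [h1]
    _ = (q W * q (G X)) * q (G g) * q W := by simp only [mul_assoc]
    _ = q (G g) * q W := by rw [h2, one_mul]

theorem loc_shift (hWU : W * U = 1) (hUX : q U = q (G X)) (j l : ℕ) (g : O) :
    q W ^ j * q (G g) = q W ^ (j + l) * q (G (X ^ l * g)) := by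
  have h2 : q W * q (G X) = 1 := by rw [← hUX, ← map_mul, hWU, map_one]
  have h3 : ∀ l : ℕ, q W ^ l * q (G X) ^ l = 1 := by
    intro l
    induction l with
    | zero => simp
    | succ l ih =>
      rw [pow_succ (q W), pow_succ' (q (G X)), mul_assoc, ← mul_assoc (q W) (q (G X)), h2, one_mul, ih]
  rw [map_mul, map_mul, map_pow, map_pow, pow_add, mul_assoc, ← mul_assoc (q W ^ l), h3, one_mul]

/-- Elements whose image is `W ^ j * G g`. -/
def locRing (hUW : U * W = 1) (hWU : W * U = 1) (hUX : q U = q (G X)) : Subring C where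
  carrier := {x | ∃ (j : ℕ) (g : O), q x = q W ^ j * q (G g)}
  one_mem' := ⟨0, 1, by simp⟩
  zero_mem' := ⟨0, 0, by simp⟩
  neg_mem' := by
    rintro x ⟨j, g, h⟩
    exact ⟨j, -g, by rw [map_neg, h, map_neg, map_neg, mul_neg]⟩
  add_mem' := by
    rintro x y ⟨j, g, h⟩ ⟨l, k, h'⟩
    refine ⟨j + l, X ^ l * g + X ^ j * k, ?_⟩
    rw [map_add, h, h', loc_shift q G X U W hWU hUX j l g, loc_shift q G X U W hWU hUX l j k,
      add_comm l j, ← mul_add, ← map_add, ← map_add]
  mul_mem' := by
    rintro x y ⟨j, g, h⟩ ⟨l, k, h'⟩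
    refine ⟨j + l, g * k, ?_⟩
    have hc : Commute (q W ^ l) (q (G g)) := (loc_comm q G X U W hUW hWU hUX g).pow_left l
    rw [map_mul, h, h', map_mul, map_mul, pow_add, mul_assoc, mul_assoc, ← mul_assoc (q (G g)),
      ← hc.eq, mul_assoc]

theorem mem_locRing {hUW : U * W = 1} {hWU : W * U = 1} {hUX : q U = q (G X)} {x : C} :
    x ∈ locRing q G X U W hUW hWU hUX ↔ ∃ (j : ℕ) (g : O), q x = q W ^ j * q (G g) := Iff.rfl

theorem locRing_unitRegular (hUW : U * W = 1) (hWU : W * U = 1) (hUX : q U = q (G X))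
    (hO : ∀ g : O, g ≠ 0 → ∃ (l : ℕ) (g' g'' : O), g' * g'' = 1 ∧ g = X ^ l * g')
    (hI : ∀ y, q y = 0 → (∃ v v', v * v' = 1 ∧ v' * v = 1 ∧ q v = 1 ∧ y * v * y = y) ∧
      ∃ v v', v * v' = 1 ∧ v' * v = 1 ∧ q v = 1 ∧ (1 + y) * v * (1 + y) = 1 + y)
    (x : locRing q G X U W hUW hWU hUX) :
    ∃ u : (locRing q G X U W hUW hWU hUX)ˣ, x * u * x = x := by
  obtain ⟨x, j, g, hx⟩ := x
  have hone : ∀ v v' : C, v' * v = 1 → q v = 1 → q v' = 1 := by
    intro v v' h1 h2
    have := congrArg q h1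
    rw [map_mul, h2, mul_one, map_one] at this
    exact this
  by_cases hg : g = 0
  · subst hg
    have hx0 : q x = 0 := by rw [hx]; simp
    obtain ⟨⟨v, v', h1, h2, h3, h4⟩, -⟩ := hI x hx0
    refine ⟨⟨⟨v, 0, 1, by simp [h3]⟩, ⟨v', 0, 1, by simp [hone v v' h2 h3]⟩, ?_, ?_⟩, ?_⟩
    · exact Subtype.ext h1
    · exact Subtype.ext h2
    · exact Subtype.ext h4
  · obtain ⟨l, g', g'', hgg, hgl⟩ := hO g hg
    have hgg' : g'' * g' = 1 := by rw [mul_comm]; exact hgg
    -- the unit `u0`
    have hUWl : ∀ l : ℕ, U ^ l * W ^ l = 1 := by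
      intro l
      induction l with
      | zero => simp
      | succ l ih => rw [pow_succ, pow_succ', mul_assoc, ← mul_assoc U W, hUW, one_mul, ih]
    have hWUl : ∀ l : ℕ, W ^ l * U ^ l = 1 := by
      intro l
      induction l with
      | zero => simp
      | succ l ih => rw [pow_succ, pow_succ', mul_assoc, ← mul_assoc W U, hWU, one_mul, ih]
    set u0 : C := W ^ j * U ^ l * G g' with hu0
    set u0' : C := G g'' * W ^ l * U ^ j with hu0'
    have hG1 : G g' * G g'' = 1 := by rw [← map_mul, hgg, map_one]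
    have hG2 : G g'' * G g' = 1 := by rw [← map_mul, hgg', map_one]
    have h12 : u0 * u0' = 1 := by
      calc u0 * u0' = W ^ j * (U ^ l * (G g' * G g'') * W ^ l) * U ^ j := by
            simp only [hu0, hu0', mul_assoc]
        _ = 1 := by rw [hG1, mul_one, hUWl, mul_one, hWUl]
    have h21 : u0' * u0 = 1 := by
      calc u0' * u0 = G g'' * (W ^ l * (U ^ j * W ^ j) * U ^ l) * G g' := by
            simp only [hu0, hu0', mul_assoc]
        _ = 1 := by rw [hUWl, mul_one, hWUl, mul_one, hG2]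
    have hqu0 : q u0 = q x := by
      rw [hx, hgl, hu0, map_mul, map_mul, map_pow, map_pow, hUX, map_mul, map_mul, map_pow, map_pow,
        mul_assoc]
    have hqu0' : q u0' = q W ^ l * q (G (X ^ j * g'')) := by
      have hc : Commute (q W ^ l) (q (G g'')) := (loc_comm q G X U W hUW hWU hUX g'').pow_left l
      rw [hu0', map_mul q, map_mul q, map_pow q, map_pow q, hUX, ← hc.eq, mul_assoc,
        mul_comm (X ^ j) g'', map_mul G, map_mul q, map_pow G, map_pow q]
    set y : C := u0' * x - 1 with hy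
    have hqy : q y = 0 := by
      rw [hy, map_sub, map_mul, map_one, ← hqu0, ← map_mul, h21, map_one, sub_self]
    obtain ⟨-, ⟨v, v', h1, h2, h3, h4⟩⟩ := hI y hqy
    have h1y : 1 + y = u0' * x := by rw [hy]; abel
    rw [h1y] at h4
    have hqv' := hone v v' h2 h3
    refine ⟨⟨⟨v * u0', l, X ^ j * g'', by rw [map_mul, h3, one_mul, hqu0']⟩,
      ⟨u0 * v', j, g, by rw [map_mul, hqv', mul_one, hqu0, hx]⟩, ?_, ?_⟩, ?_⟩
    · apply Subtype.ext
      change v * u0' * (u0 * v') = 1
      calc v * u0' * (u0 * v') = v * (u0' * u0) * v' := by simp only [mul_assoc]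
        _ = 1 := by rw [h21, mul_one, h1]
    · apply Subtype.ext
      change u0 * v' * (v * u0') = 1
      calc u0 * v' * (v * u0') = u0 * (v' * v) * u0' := by simp only [mul_assoc]
        _ = 1 := by rw [h2, mul_one, h12]
    · apply Subtype.ext
      change x * (v * u0') * x = x
      calc x * (v * u0') * x = (u0 * u0') * x * (v * u0') * x := by rw [h12, one_mul]
        _ = u0 * ((u0' * x) * v * (u0' * x)) := by simp only [mul_assoc]
        _ = u0 * (u0' * x) := by rw [h4]
        _ = x := by rw [← mul_assoc, h12, one_mul]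

end Loc

end Pool.Agent.Helper20
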