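import Mathlib
import Pool.Agent.Helper20.URA
import Pool.Agent.Helper20.URB

namespace Pool.Agent.Helper20

theorem loc_final {C Q O : Type*} [Ring C] [Ring Q] [CommRing O] (q : C →+* Q) (G : O →+* C)
    (X : O) (U W : C)
    (hUW : U * W = 1) (hWU : W * U = 1) (hUX : q U = q (G X))
    (hO : ∀ g : O, g ≠ 0 → ∃ (l : ℕ) (g' g'' : O), g' * g'' = 1 ∧ g = X ^ l * g')
    (hI : ∀ y, q y = 0 → (∃ v v', v * v' = 1 ∧ v' * v = 1 ∧ q v = 1 ∧ y * v * y = y) ∧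
      ∃ v v', v * v' = 1 ∧ v' * v = 1 ∧ q v = 1 ∧ (1 + y) * v * (1 + y) = 1 + y)
    (hno : ∀ w : C, q (1 - G X * w) = 0 → q (1 - w * G X) = 0 →
      (∀ k : ℕ, 1 ≤ k → G X ^ k * w ^ k * G X ^ k = G X ^ k) → False) :
    (∀ x : locRing q G X U W hUW hWU hUX, ∃ u : (locRing q G X U W hUW hWU hUX)ˣ, x * u * x = x) ∧
      ∃ a : locRing q G X U W hUW hWU hUX, ∀ w : locRing q G X U W hUW hWU hUX,
        ∃ k : ℕ, 1 ≤ k ∧ a ^ k * w ^ k * a ^ k ≠ a ^ k := by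
  refine ⟨locRing_unitRegular q G X U W hUW hWU hUX hO hI,
    ⟨G X, 0, X, by rw [pow_zero, one_mul]⟩, fun w => ?_⟩
  by_contra hcon
  have hgood : ∀ k : ℕ, 1 ≤ k → G X ^ k * w.1 ^ k * G X ^ k = G X ^ k := by
    intro k hk
    by_contra h
    exact hcon ⟨k, hk, fun h' => h (congrArg Subtype.val h')⟩
  have h1 := congrArg q (hgood 1 le_rfl)
  rw [pow_one, pow_one, map_mul, map_mul, ← hUX] at h1
  have hUW' : q U * q W = 1 := by rw [← map_mul, hUW, map_one]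
  have hWU' : q W * q U = 1 := by rw [← map_mul, hWU, map_one]
  have hw : q w.1 = q W := by
    calc q w.1 = (q W * q U) * q w.1 * (q U * q W) := by
          rw [hWU', hUW', one_mul, mul_one]
      _ = q W * (q U * q w.1 * q U) * q W := by simp only [mul_assoc]
      _ = q W := by rw [h1, hWU', one_mul]
  apply hno w.1 _ _ hgood
  · rw [map_sub, map_one, map_mul, ← hUX, hw, hUW', sub_self]
  · rw [map_sub, map_one, map_mul, ← hUX, hw, hWU', sub_self]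

theorem loc_final' {C O : Type*} [Ring C] [CommRing O] (I : Ideal C) [I.IsTwoSided] (G : O →+* C)
    (X : O) (U W : C)
    (hUW : U * W = 1) (hWU : W * U = 1) (hUX : U - G X ∈ I)
    (hO : ∀ g : O, g ≠ 0 → ∃ (l : ℕ) (g' g'' : O), g' * g'' = 1 ∧ g = X ^ l * g')
    (hI : ∀ y ∈ I, (∃ v v', v * v' = 1 ∧ v' * v = 1 ∧ v - 1 ∈ I ∧ y * v * y = y) ∧
      ∃ v v', v * v' = 1 ∧ v' * v = 1 ∧ v - 1 ∈ I ∧ (1 + y) * v * (1 + y) = 1 + y)
    (hno : ∀ w : C, 1 - G X * w ∈ I → 1 - w * G X ∈ I →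
      (∀ k : ℕ, 1 ≤ k → G X ^ k * w ^ k * G X ^ k = G X ^ k) → False) :
    ∃ R : Subring C, (∀ x : R, ∃ u : Rˣ, x * u * x = x) ∧
      ∃ a : R, ∀ w : R, ∃ k : ℕ, 1 ≤ k ∧ a ^ k * w ^ k * a ^ k ≠ a ^ k := by
  have hq : ∀ y : C, Ideal.Quotient.mk I y = 0 ↔ y ∈ I := fun y => Ideal.Quotient.eq_zero_iff_mem
  have hq1 : ∀ y : C, y - 1 ∈ I → Ideal.Quotient.mk I y = 1 := fun y hy => by
    rw [← sub_eq_zero, ← map_one (Ideal.Quotient.mk I), ← map_sub, hq]; exact hy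
  refine ⟨_, loc_final (Ideal.Quotient.mk I) G X U W hUW hWU ?_ hO ?_ ?_⟩
  · rw [← sub_eq_zero, ← map_sub, hq]
    exact hUX
  · intro y hy
    rw [hq] at hy
    obtain ⟨⟨v, v', h1, h2, h3, h4⟩, ⟨u, u', f1, f2, f3, f4⟩⟩ := hI y hy
    exact ⟨⟨v, v', h1, h2, hq1 v h3, h4⟩, ⟨u, u', f1, f2, hq1 u f3, f4⟩⟩
  · intro w h1 h2 hgood
    rw [hq] at h1 h2
    exact hno w h1 h2 hgood

theorem germ_final {F : Type*} [Field F] {V : ℕ → Type*} [∀ n, AddCommGroup (V n)]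
    [∀ n, Module F (V n)] [∀ n, FiniteDimensional F (V n)]
    (B : ∀ n, LinearMap.BilinForm F (V n)) {D : Type*} [Nonempty D]
    (T : D → ∀ n, Submodule F (V n))
    (hdir : ∀ d d', ∃ d'', ∀ n, T d n ≤ T d'' n ∧ T d' n ≤ T d'' n)
    (hsymm : ∀ n x y, B n x y = B n y x)
    (hnd : ∀ d, ∃ d' N, ∀ n, N ≤ n → T d n ≤ T d' n ∧
      ∀ t ∈ T d' n, (∀ s ∈ T d' n, B n t s = 0) → t = 0)
    {O : Type*} [CommRing O] (G : O →+* ∀ n, Module.End F (V n)) (hG : ∀ g, Adm B T (G g))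
    (X : O) (U W : ∀ n, Module.End F (V n)) (hUW : U * W = 1) (hWU : W * U = 1)
    (hW : Adm B T W) (hUX : Small B T (U - G X))
    (hO : ∀ g : O, g ≠ 0 → ∃ (l : ℕ) (g' g'' : O), g' * g'' = 1 ∧ g = X ^ l * g')
    (hno : ∀ w : ∀ n, Module.End F (V n), Small B T (1 - G X * w) → Small B T (1 - w * G X) →
      (∀ k : ℕ, 1 ≤ k → G X ^ k * w ^ k * G X ^ k = G X ^ k) → False) :
    ∃ R : Subring (admRing B T hdir), (∀ x : R, ∃ u : Rˣ, x * u * x = x) ∧
      ∃ a : R, ∀ w : R, ∃ k : ℕ, 1 ≤ k ∧ a ^ k * w ^ k * a ^ k ≠ a ^ k := by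
  have hU : Adm B T U := by
    have h := Adm.add hdir hUX.adm (hG X)
    rwa [sub_add_cancel] at h
  let G' : O →+* admRing B T hdir := G.codRestrict (admRing B T hdir) hG
  refine loc_final' (smallIdeal B T hdir) G' X ⟨U, hU⟩ ⟨W, hW⟩ (Subtype.ext hUW)
    (Subtype.ext hWU) hUX hO ?_ ?_
  · intro y hy
    have hy' : Small B T y.1 := hy
    have key : ∀ v v' : (∀ n, Module.End F (V n)), v * v' = 1 → v' * v = 1 →
        Small B T (v - 1) → Small B T (v' - 1) →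
        ∃ a a' : admRing B T hdir, a * a' = 1 ∧ a' * a = 1 ∧ a - 1 ∈ smallIdeal B T hdir ∧
          a.1 = v := by
      intro v v' e1 e2 s1 s2
      have a1 : Adm B T v := by
        have h := Adm.add hdir s1.adm (adm_one (B := B) (T := T))
        rwa [sub_add_cancel] at h
      have a2 : Adm B T v' := by
        have h := Adm.add hdir s2.adm (adm_one (B := B) (T := T))
        rwa [sub_add_cancel] at h
      exact ⟨⟨v, a1⟩, ⟨v', a2⟩, Subtype.ext e1, Subtype.ext e2, s1, rfl⟩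
    constructor
    · obtain ⟨v, v', e1, e2, s1, s2, h⟩ := small_unit_inner hsymm hnd y.1 hy' 0
      obtain ⟨a, a', f1, f2, f3, f4⟩ := key v v' e1 e2 s1 s2
      refine ⟨a, a', f1, f2, f3, Subtype.ext ?_⟩
      have h' := h (Or.inl rfl)
      have e : (fun n => (0 : F) • (1 : Module.End F (V n)) + y.1 n) = y.1 := by
        funext n; rw [zero_smul, zero_add]
      rw [e] at h'
      change y.1 * a.1 * y.1 = y.1
      rw [f4]
      exact h'
    · obtain ⟨v, v', e1, e2, s1, s2, h⟩ := small_unit_inner hsymm hnd y.1 hy' 1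
      obtain ⟨a, a', f1, f2, f3, f4⟩ := key v v' e1 e2 s1 s2
      refine ⟨a, a', f1, f2, f3, Subtype.ext ?_⟩
      have h' := h (Or.inr rfl)
      have e : (fun n => (1 : F) • (1 : Module.End F (V n)) + y.1 n) = 1 + y.1 := by
        funext n; rw [one_smul]; rfl
      rw [e] at h'
      change (1 + y.1) * a.1 * (1 + y.1) = 1 + y.1
      rw [f4]
      exact h'
  · intro w h1 h2 hgood
    exact hno w.1 h1 h2 (fun k hk => congrArg Subtype.val (hgood k hk))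

end Pool.Agent.Helper20
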