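import Mathlib
import Pool.Agent.Helper20.URA
import Pool.Agent.Helper20.URB

namespace Pool.Agent.Helper20

open PowerSeries

noncomputable section

variable {F : Type} [Field F]

/-- The kernel of truncation at levels `n+1` and `2n+2`. -/
def truncIdeal (F : Type) [Field F] (n : ℕ) : Ideal (F⟦X⟧ × F⟦X⟧) where
  carrier := {m | (X : F⟦X⟧) ^ (n + 1) ∣ m.1 ∧ (X : F⟦X⟧) ^ (2 * n + 2) ∣ m.2}
  add_mem' := fun ha hb => ⟨dvd_add ha.1 hb.1, dvd_add ha.2 hb.2⟩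
  zero_mem' := ⟨dvd_zero _, dvd_zero _⟩
  smul_mem' := fun c x hx => ⟨Dvd.dvd.mul_left hx.1 c.1, Dvd.dvd.mul_left hx.2 c.2⟩

/-- `V n = F[[X]]/X^(n+1) × F[[X]]/X^(2n+2)`. -/
def VV (F : Type) [Field F] (n : ℕ) : Type := (F⟦X⟧ × F⟦X⟧) ⧸ truncIdeal F n

instance (n : ℕ) : CommRing (VV F n) :=
  inferInstanceAs (CommRing ((F⟦X⟧ × F⟦X⟧) ⧸ truncIdeal F n))

instance (n : ℕ) : Algebra F (VV F n) :=
  inferInstanceAs (Algebra F ((F⟦X⟧ × F⟦X⟧) ⧸ truncIdeal F n))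

/-- The projection. -/
def pr (n : ℕ) : (F⟦X⟧ × F⟦X⟧) →ₐ[F] VV F n := Ideal.Quotient.mkₐ F (truncIdeal F n)

theorem pr_surj (n : ℕ) : Function.Surjective (pr (F := F) n) := Ideal.Quotient.mkₐ_surjective F _

theorem pr_eq_zero {n : ℕ} {m : F⟦X⟧ × F⟦X⟧} :
    pr n m = 0 ↔ (X : F⟦X⟧) ^ (n + 1) ∣ m.1 ∧ (X : F⟦X⟧) ^ (2 * n + 2) ∣ m.2 :=
  Ideal.Quotient.eq_zero_iff_mem

/-- The residue functional on pairs. -/
def resA (n : ℕ) : (F⟦X⟧ × F⟦X⟧) →ₗ[F] F :=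
  (PowerSeries.coeff (R := F) n) ∘ₗ LinearMap.fst F _ _ +
    (PowerSeries.coeff (R := F) (2 * n + 1)) ∘ₗ LinearMap.snd F _ _

/-- The residue functional on `V n`. -/
def res (n : ℕ) : VV F n →ₗ[F] F :=
  (((truncIdeal F n).restrictScalars F).liftQ (resA n) (by
    intro m hm
    have hm' : (X : F⟦X⟧) ^ (n + 1) ∣ m.1 ∧ (X : F⟦X⟧) ^ (2 * n + 2) ∣ m.2 := hm
    rw [LinearMap.mem_ker]
    simp only [resA, LinearMap.add_apply, LinearMap.comp_apply, LinearMap.fst_apply,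
      LinearMap.snd_apply]
    rw [(X_pow_dvd_iff.1 hm'.1) n (by omega), (X_pow_dvd_iff.1 hm'.2) (2 * n + 1) (by omega),
      add_zero])) ∘ₗ
    (Submodule.Quotient.restrictScalarsEquiv F (truncIdeal F n)).symm.toLinearMap

theorem res_pr (n : ℕ) (m : F⟦X⟧ × F⟦X⟧) :
    res n (pr n m) = PowerSeries.coeff n m.1 + PowerSeries.coeff (2 * n + 1) m.2 := rfl

/-- The form on `V n`. -/
def BB (n : ℕ) : LinearMap.BilinForm F (VV F n) := (LinearMap.mul F (VV F n)).compr₂ (res n)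

theorem BB_apply (n : ℕ) (x y : VV F n) : BB n x y = res n (x * y) := rfl

/-- The nilpotent element. -/
def xx (n : ℕ) : VV F n := pr n (X, X)

theorem xx_pow_mul_pr (n j : ℕ) (m : F⟦X⟧ × F⟦X⟧) :
    xx n ^ j * pr n m = pr n (X ^ j * m.1, X ^ j * m.2) := by
  rw [xx, ← map_pow, ← map_mul]
  rfl

theorem xx_mul_pr (n : ℕ) (m : F⟦X⟧ × F⟦X⟧) :
    xx n * pr n m = pr n (X * m.1, X * m.2) := by
  rw [xx, ← map_mul]
  rfl

theorem X_pow_dvd_X_pow_mul {a b : ℕ} {f : F⟦X⟧} (hab : b ≤ a)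
    (h : (X : F⟦X⟧) ^ a ∣ X ^ b * f) : (X : F⟦X⟧) ^ (a - b) ∣ f := by
  have : (X : F⟦X⟧) ^ a = X ^ b * X ^ (a - b) := by rw [← pow_add]; congr 1; omega
  rw [this] at h
  exact (mul_dvd_mul_iff_left (pow_ne_zero _ X_ne_zero)).1 h

theorem K1 {n j : ℕ} (hj : j ≤ n + 1) {v : VV F n} (hv : xx n ^ j * v = 0) :
    ∃ w, v = xx n ^ (n + 1 - j) * w := by
  obtain ⟨m, rfl⟩ := pr_surj n v
  rw [xx_pow_mul_pr, pr_eq_zero] at hv
  obtain ⟨f, hf⟩ := X_pow_dvd_X_pow_mul hj hv.1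
  obtain ⟨g, hg⟩ := (pow_dvd_pow (X : F⟦X⟧) (show n + 1 - j ≤ 2 * n + 2 - j by omega)).trans
    (X_pow_dvd_X_pow_mul (by omega) hv.2)
  refine ⟨pr n (f, g), ?_⟩
  rw [xx_pow_mul_pr, ← hf, ← hg]

theorem res_fst {n i : ℕ} (hi : i ≤ n) (s : F⟦X⟧ × F⟦X⟧) :
    res n (pr n s * pr n (X ^ (n - i), 0)) = PowerSeries.coeff i s.1 := by
  rw [← map_mul, res_pr]
  simp only [Prod.mul_def, mul_zero, map_zero, add_zero]
  rw [coeff_mul_X_pow', if_pos (by omega), show n - (n - i) = i by omega]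

theorem res_snd {n i : ℕ} (hi : i ≤ 2 * n + 1) (s : F⟦X⟧ × F⟦X⟧) :
    res n (pr n s * pr n (0, X ^ (2 * n + 1 - i))) = PowerSeries.coeff i s.2 := by
  rw [← map_mul, res_pr]
  simp only [Prod.mul_def, mul_zero, map_zero, zero_add]
  rw [coeff_mul_X_pow', if_pos (by omega), show 2 * n + 1 - (2 * n + 1 - i) = i by omega]

theorem K2 {n j : ℕ} (hj : j ≤ n + 1) {s : F⟦X⟧ × F⟦X⟧}
    (h : ∀ v : VV F n, xx n ^ j * v = 0 → res n (pr n s * v) = 0) :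
    (X : F⟦X⟧) ^ j ∣ s.1 ∧ (X : F⟦X⟧) ^ j ∣ s.2 := by
  constructor
  · rw [X_pow_dvd_iff]
    intro i hi
    rw [← res_fst (n := n) (by omega) s]
    apply h
    rw [xx_pow_mul_pr, pr_eq_zero]
    simp only [mul_zero, dvd_zero, and_true]
    rw [← pow_add]
    exact pow_dvd_pow _ (by omega)
  · rw [X_pow_dvd_iff]
    intro i hi
    rw [← res_snd (n := n) (by omega) s]
    apply h
    rw [xx_pow_mul_pr, pr_eq_zero]
    simp only [mul_zero, dvd_zero, true_and]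
    rw [← pow_add]
    exact pow_dvd_pow _ (by omega)

theorem K3 {n : ℕ} {v : VV F n} (h : ∀ w : VV F n, res n (v * w) = 0) : v = 0 := by
  obtain ⟨s, rfl⟩ := pr_surj n v
  rw [pr_eq_zero]
  constructor
  · rw [X_pow_dvd_iff]
    intro i hi
    rw [← res_fst (n := n) (by omega) s]
    exact h _
  · rw [X_pow_dvd_iff]
    intro i hi
    rw [← res_snd (n := n) (by omega) s]
    exact h _

instance VV_finite (n : ℕ) : FiniteDimensional F (VV F n) := by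
  let φ : VV F n →ₗ[F] (Fin (n + 1) → F) × (Fin (2 * n + 2) → F) :=
    LinearMap.prod (LinearMap.pi fun i => (BB n).flip (pr n (X ^ (n - (i : ℕ)), 0)))
      (LinearMap.pi fun i => (BB n).flip (pr n (0, X ^ (2 * n + 1 - (i : ℕ)))))
  refine Module.Finite.of_injective φ ?_
  rw [injective_iff_map_eq_zero]
  intro v hv
  obtain ⟨s, rfl⟩ := pr_surj n v
  rw [pr_eq_zero]
  have h1 := congrArg Prod.fst hv
  have h2 := congrArg Prod.snd hv
  constructor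
  · rw [X_pow_dvd_iff]
    intro i hi
    rw [← res_fst (n := n) (by omega) s]
    exact congrFun h1 ⟨i, hi⟩
  · rw [X_pow_dvd_iff]
    intro i hi
    rw [← res_snd (n := n) (by omega) s]
    exact congrFun h2 ⟨i, hi⟩

end

end Pool.Agent.Helper20
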