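import Mathlib
import Pool.Agent.Helper20.URC

namespace Pool.Agent.Helper20

open PowerSeries

noncomputable section

variable {F : Type} [Field F]

theorem fg_sep (W : Submodule F F⟦X⟧) (hW : W.FG) :
    ∃ N : ℕ, ∀ f ∈ W, (X : F⟦X⟧) ^ N ∣ f → f = 0 := by
  have : FiniteDimensional F W := Module.Finite.iff_fg.2 hW
  let g : ℕ →o (Submodule F W)ᵒᵈ :=
    { toFun := fun N => OrderDual.toDual
        { carrier := {w | (X : F⟦X⟧) ^ N ∣ (w : F⟦X⟧)}
          add_mem' := fun ha hb => dvd_add ha hb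
          zero_mem' := dvd_zero _
          smul_mem' := fun c w hw => by
            change (X : F⟦X⟧) ^ N ∣ c • (w : F⟦X⟧)
            rw [PowerSeries.smul_eq_C_mul]
            exact Dvd.dvd.mul_left hw _ }
      monotone' := by
        intro a b hab
        change (_ : Submodule F W) ≤ _
        intro w hw
        exact (pow_dvd_pow _ hab).trans hw }
  obtain ⟨N, hN⟩ := IsArtinian.monotone_stabilizes g
  refine ⟨N, fun f hf hd => ?_⟩
  have h : ∀ m, N ≤ m → (X : F⟦X⟧) ^ m ∣ f := by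
    intro m hm
    have h1 : (⟨f, hf⟩ : W) ∈ OrderDual.ofDual (g N) := hd
    rw [hN m hm] at h1
    exact h1
  ext i
  rw [map_zero]
  exact X_pow_dvd_iff.1 (h (N + i + 1) (by omega)) i (by omega)

theorem fg_sep2 (S : Submodule F (F⟦X⟧ × F⟦X⟧)) (hS : S.FG) :
    ∃ N : ℕ, ∀ s ∈ S, (X : F⟦X⟧) ^ N ∣ s.1 ∧ (X : F⟦X⟧) ^ N ∣ s.2 → s = 0 := by
  obtain ⟨N1, h1⟩ := fg_sep (S.map (LinearMap.fst F F⟦X⟧ F⟦X⟧)) (hS.map _)
  obtain ⟨N2, h2⟩ := fg_sep (S.map (LinearMap.snd F F⟦X⟧ F⟦X⟧)) (hS.map _)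
  refine ⟨max N1 N2, fun s hs hd => ?_⟩
  have e1 := h1 s.1 (Submodule.mem_map.2 ⟨s, hs, rfl⟩)
    ((pow_dvd_pow _ (le_max_left _ _)).trans hd.1)
  have e2 := h2 s.2 (Submodule.mem_map.2 ⟨s, hs, rfl⟩)
    ((pow_dvd_pow _ (le_max_right _ _)).trans hd.2)
  exact Prod.ext e1 e2

/-- Rational power series. -/
def ratSub (F : Type) [Field F] : Subring F⟦X⟧ where
  carrier := {f | ∃ q p : Polynomial F, q ≠ 0 ∧ (q : F⟦X⟧) * f = (p : F⟦X⟧)}
  one_mem' := ⟨1, 1, one_ne_zero, by simp⟩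
  zero_mem' := ⟨1, 0, one_ne_zero, by simp⟩
  neg_mem' := by
    rintro f ⟨q, p, hq, h⟩
    exact ⟨q, -p, hq, by rw [mul_neg, h]; simp⟩
  add_mem' := by
    rintro f g ⟨q, p, hq, h⟩ ⟨q', p', hq', h'⟩
    refine ⟨q * q', q' * p + q * p', mul_ne_zero hq hq', ?_⟩
    rw [Polynomial.coe_mul, Polynomial.coe_add, Polynomial.coe_mul, Polynomial.coe_mul, ← h, ← h']
    ring
  mul_mem' := by
    rintro f g ⟨q, p, hq, h⟩ ⟨q', p', hq', h'⟩
    refine ⟨q * q', p * p', mul_ne_zero hq hq', ?_⟩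
    rw [Polynomial.coe_mul, Polynomial.coe_mul, ← h, ← h']
    ring

theorem mem_ratSub {f : F⟦X⟧} :
    f ∈ ratSub F ↔ ∃ q p : Polynomial F, q ≠ 0 ∧ (q : F⟦X⟧) * f = (p : F⟦X⟧) := Iff.rfl

theorem ratSub_poly (p : Polynomial F) : (p : F⟦X⟧) ∈ ratSub F :=
  ⟨1, p, one_ne_zero, by simp⟩

theorem ratSub_C (c : F) : (C c : F⟦X⟧) ∈ ratSub F := by
  have := ratSub_poly (Polynomial.C c)
  rwa [Polynomial.coe_C] at this

theorem ratSub_X : (X : F⟦X⟧) ∈ ratSub F := by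
  have := ratSub_poly (Polynomial.X : Polynomial F)
  rwa [Polynomial.coe_X] at this

theorem ratSub_div_X {f : F⟦X⟧} (h : X * f ∈ ratSub F) : f ∈ ratSub F := by
  obtain ⟨q, p, hq, h⟩ := h
  refine ⟨q * Polynomial.X, p, mul_ne_zero hq Polynomial.X_ne_zero, ?_⟩
  rw [Polynomial.coe_mul, Polynomial.coe_X, mul_assoc, h]

theorem ratSub_cancel {f g : F⟦X⟧} (hf : f ∈ ratSub F) (hf0 : f ≠ 0) (h : f * g ∈ ratSub F) :
    g ∈ ratSub F := by
  obtain ⟨q, p, hq, h1⟩ := hf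
  obtain ⟨q', p', hq', h2⟩ := h
  have hp : p ≠ 0 := by
    rintro rfl
    rw [Polynomial.coe_zero] at h1
    rcases mul_eq_zero.1 h1 with h | h
    · exact hq (Polynomial.coe_eq_zero_iff.1 h)
    · exact hf0 h
  refine ⟨q' * p, q * p', mul_ne_zero hq' hp, ?_⟩
  rw [Polynomial.coe_mul, Polynomial.coe_mul, ← h1, ← h2]
  ring

/-- A lacunary power series. -/
def lac (F : Type) [Field F] : F⟦X⟧ := by
  classical
  exact PowerSeries.mk (fun n => if ∃ k : ℕ, n = 2 ^ k then (1 : F) else 0)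

theorem coeff_lac_pow (k : ℕ) : PowerSeries.coeff (2 ^ k) (lac F) = 1 := by
  classical
  rw [lac, coeff_mk, if_pos ⟨k, rfl⟩]

theorem coeff_lac_of_not {n : ℕ} (h : ¬ ∃ k : ℕ, n = 2 ^ k) :
    PowerSeries.coeff n (lac F) = 0 := by
  classical
  rw [lac, coeff_mk, if_neg h]

theorem lac_const : PowerSeries.constantCoeff (lac F) = 0 := by
  rw [← coeff_zero_eq_constantCoeff_apply]
  apply coeff_lac_of_not
  rintro ⟨k, hk⟩
  have : 0 < 2 ^ k := by positivity
  omega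

theorem lac_not_mem : lac F ∉ ratSub F := by
  rintro ⟨q, p, hq, h⟩
  set d := q.natDegree
  obtain ⟨k, hk⟩ : ∃ k : ℕ, d + p.natDegree < 2 ^ k := ⟨_, Nat.lt_two_pow_self⟩
  have h1 := congrArg (PowerSeries.coeff (d + 2 ^ k)) h
  rw [Polynomial.coeff_coe, Polynomial.coeff_eq_zero_of_natDegree_lt (by omega),
    PowerSeries.coeff_mul, Finset.sum_eq_single (d, 2 ^ k)] at h1
  · rw [coeff_lac_pow, mul_one, Polynomial.coeff_coe] at h1
    exact hq (Polynomial.leadingCoeff_eq_zero.1 h1)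
  · rintro ⟨i, j⟩ hij hne
    rw [Finset.HasAntidiagonal.mem_antidiagonal] at hij
    simp only at hij
    simp only
    rw [Polynomial.coeff_coe]
    by_cases hi : i ≤ d
    · have hj : ¬ ∃ l : ℕ, j = 2 ^ l := by
        rintro ⟨l, hl⟩
        have h2 : 2 ^ k ≤ 2 ^ l := by omega
        have h3 : 2 ^ l < 2 ^ (k + 1) := by rw [pow_succ]; omega
        have h4 : k ≤ l := (Nat.pow_le_pow_iff_right (by norm_num)).1 h2
        have h5 : l < k + 1 := (Nat.pow_lt_pow_iff_right (by norm_num)).1 h3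
        have h6 : l = k := by omega
        subst h6
        exact hne (Prod.ext (by simp; omega) (by simp; omega))
      rw [coeff_lac_of_not hj, mul_zero]
    · rw [Polynomial.coeff_eq_zero_of_natDegree_lt (by omega), zero_mul]
  · intro hh
    exact absurd (by rw [Finset.HasAntidiagonal.mem_antidiagonal]) hh

/-- The rational lattice. -/
def lat (F : Type) [Field F] : Submodule F (F⟦X⟧ × F⟦X⟧) where
  carrier := {m | m.1 ∈ ratSub F ∧ m.2 + lac F * m.1 ∈ ratSub F}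
  add_mem' := by
    intro a b ha hb
    refine ⟨add_mem ha.1 hb.1, ?_⟩
    have := add_mem ha.2 hb.2
    have e : (a + b).2 + lac F * (a + b).1 = (a.2 + lac F * a.1) + (b.2 + lac F * b.1) := by
      simp only [Prod.snd_add, Prod.fst_add]; ring
    rw [e]; exact this
  zero_mem' := ⟨zero_mem _, by simp [zero_mem]⟩
  smul_mem' := by
    intro c m hm
    have e1 : ∀ f : F⟦X⟧, c • f = C c * f := fun f => PowerSeries.smul_eq_C_mul f c
    refine ⟨?_, ?_⟩
    · simp only [Prod.smul_fst, e1]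
      exact mul_mem (ratSub_C c) hm.1
    · have e : (c • m).2 + lac F * (c • m).1 = C c * (m.2 + lac F * m.1) := by
        simp only [Prod.smul_fst, Prod.smul_snd, e1]; ring
      rw [e]
      exact mul_mem (ratSub_C c) hm.2

theorem mem_lat {m : F⟦X⟧ × F⟦X⟧} :
    m ∈ lat F ↔ m.1 ∈ ratSub F ∧ m.2 + lac F * m.1 ∈ ratSub F := Iff.rfl

theorem lat_mul {g : F⟦X⟧} (hg : g ∈ ratSub F) {m : F⟦X⟧ × F⟦X⟧} (hm : m ∈ lat F) :
    (g * m.1, g * m.2) ∈ lat F := by
  refine ⟨mul_mem hg hm.1, ?_⟩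
  have e : g * m.2 + lac F * (g * m.1) = g * (m.2 + lac F * m.1) := by ring
  simp only
  rw [e]
  exact mul_mem hg hm.2

theorem lat_div {m : F⟦X⟧ × F⟦X⟧} (hm : (X * m.1, X * m.2) ∈ lat F) : m ∈ lat F := by
  refine ⟨ratSub_div_X hm.1, ratSub_div_X ?_⟩
  have e : X * (m.2 + lac F * m.1) = X * m.2 + lac F * (X * m.1) := by ring
  rw [e]
  exact hm.2

theorem lat_snd_ne {m : F⟦X⟧ × F⟦X⟧} (hm : m ∈ lat F) (h1 : m.1 ≠ 0) : m.2 ≠ 0 := by
  intro h2
  have h := hm.2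
  rw [h2, zero_add, mul_comm] at h
  exact lac_not_mem (ratSub_cancel hm.1 h1 h)

/-- Basic vectors of the lattice. -/
def eo (F : Type) [Field F] : F⟦X⟧ × F⟦X⟧ := (1, - lac F)

def et (F : Type) [Field F] : F⟦X⟧ × F⟦X⟧ := (0, 1)

theorem eo_mem : eo F ∈ lat F := ⟨one_mem _, by simp [eo, zero_mem]⟩

theorem et_mem : et F ∈ lat F := ⟨zero_mem _, by simp [et, one_mem]⟩

/-- The division map `m ↦ (m - m.1(0) eo - m.2(0) et) / X`. -/
def shiftOne : F⟦X⟧ →ₗ[F] F⟦X⟧ where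
  toFun := fun f => PowerSeries.mk (fun n => PowerSeries.coeff (n + 1) f)
  map_add' := fun f g => by ext n; simp
  map_smul' := fun c f => by ext n; simp

theorem shiftOne_spec (f : F⟦X⟧) : f = C (PowerSeries.constantCoeff f) + X * shiftOne f := by
  ext n
  cases n with
  | zero => simp
  | succ n =>
    rw [map_add, coeff_succ_X_mul, coeff_C, if_neg (Nat.succ_ne_zero n), zero_add]
    simp [shiftOne]

/-- The division map on pairs. -/
def dv : (F⟦X⟧ × F⟦X⟧) →ₗ[F] (F⟦X⟧ × F⟦X⟧) :=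
  LinearMap.prod (shiftOne ∘ₗ LinearMap.fst F _ _)
    (shiftOne ∘ₗ (LinearMap.snd F _ _ + (LinearMap.mulLeft F (lac F)) ∘ₗ
      ((Algebra.linearMap F F⟦X⟧) ∘ₗ (PowerSeries.coeff (R := F) 0) ∘ₗ LinearMap.fst F _ _)))

theorem dv_spec (m : F⟦X⟧ × F⟦X⟧) :
    m = PowerSeries.constantCoeff m.1 • eo F + PowerSeries.constantCoeff m.2 • et F
      + (X * (dv m).1, X * (dv m).2) := by
  have h1 : (dv m).1 = shiftOne m.1 := rfl
  have h2 : (dv m).2 = shiftOne (m.2 + lac F * C (PowerSeries.constantCoeff m.1)) := by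
    have h3 : (dv m).2 =
        shiftOne (m.2 + lac F * algebraMap F F⟦X⟧ (PowerSeries.coeff 0 m.1)) := rfl
    rw [h3, PowerSeries.algebraMap_apply, coeff_zero_eq_constantCoeff_apply]
    rfl
  have e1 : ∀ (c : F) (f : F⟦X⟧), c • f = C c * f := fun c f => PowerSeries.smul_eq_C_mul f c
  rw [h1, h2]
  ext1
  · simp only [Prod.fst_add, Prod.smul_fst, eo, et, e1, mul_one, mul_zero, add_zero]
    exact shiftOne_spec m.1
  · simp only [Prod.snd_add, Prod.smul_snd, eo, et, e1, mul_one]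
    have := shiftOne_spec (m.2 + lac F * C (PowerSeries.constantCoeff m.1))
    rw [map_add, map_mul, lac_const, zero_mul, add_zero] at this
    linear_combination this

theorem dv_mem {m : F⟦X⟧ × F⟦X⟧} (hm : m ∈ lat F) : dv m ∈ lat F := by
  apply lat_div
  have e : (X * (dv m).1, X * (dv m).2) =
      m - (PowerSeries.constantCoeff m.1 • eo F + PowerSeries.constantCoeff m.2 • et F) := by
    rw [eq_sub_iff_add_eq, add_comm]
    exact (dv_spec m).symm
  rw [e]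
  exact sub_mem hm (add_mem (Submodule.smul_mem _ _ eo_mem) (Submodule.smul_mem _ _ et_mem))

/-- `lat` surjects onto truncations. -/
theorem lat_dense (j : ℕ) (m : F⟦X⟧ × F⟦X⟧) :
    ∃ s ∈ lat F, (X : F⟦X⟧) ^ j ∣ (m - s).1 ∧ (X : F⟦X⟧) ^ j ∣ (m - s).2 := by
  induction j generalizing m with
  | zero => exact ⟨0, zero_mem _, by simp, by simp⟩
  | succ j ih =>
    obtain ⟨s, hs, h1, h2⟩ := ih (dv m)
    refine ⟨PowerSeries.constantCoeff m.1 • eo F + PowerSeries.constantCoeff m.2 • et F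
      + (X * s.1, X * s.2), add_mem (add_mem (Submodule.smul_mem _ _ eo_mem)
        (Submodule.smul_mem _ _ et_mem)) (lat_mul ratSub_X hs), ?_⟩
    have e : m - (PowerSeries.constantCoeff m.1 • eo F + PowerSeries.constantCoeff m.2 • et F
      + (X * s.1, X * s.2)) = (X * (dv m - s).1, X * (dv m - s).2) := by
      nth_rewrite 1 [dv_spec m]
      rw [add_sub_add_left_eq_sub]
      ext1 <;> simp [mul_sub]
    rw [e, pow_succ']
    exact ⟨mul_dvd_mul_left _ h1, mul_dvd_mul_left _ h2⟩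

end

end Pool.Agent.Helper20
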