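import Mathlib
import Pool.Agent.Helper20.URD

namespace Pool.Agent.Helper20

open PowerSeries

noncomputable section

variable {F : Type} [Field F]

/-- Indices of visible subspaces. -/
def DD (F : Type) [Field F] : Type :=
  {p : Submodule F (F⟦X⟧ × F⟦X⟧) × ℕ // p.1 ≤ lat F ∧ p.1.FG}

instance : Nonempty (DD F) := ⟨⟨(⊥, 0), bot_le, Submodule.fg_bot⟩⟩

/-- Visible subspaces. -/
def TT (d : DD F) (n : ℕ) : Submodule F (VV F n) :=
  (d.1.1.map (pr n).toLinearMap) ⊔ LinearMap.ker (LinearMap.mulLeft F (xx n ^ d.1.2))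

theorem mem_TT {d : DD F} {n : ℕ} {t : VV F n} :
    t ∈ TT d n ↔ ∃ s ∈ d.1.1, xx n ^ d.1.2 * (t - pr n s) = 0 := by
  constructor
  · intro h
    obtain ⟨a, ha, b, hb, rfl⟩ := Submodule.mem_sup.1 h
    obtain ⟨s, hs, rfl⟩ := Submodule.mem_map.1 ha
    refine ⟨s, hs, ?_⟩
    have : (pr n).toLinearMap s + b - pr n s = b := by
      rw [AlgHom.toLinearMap_apply]; abel
    rw [this]
    exact hb
  · rintro ⟨s, hs, h⟩
    refine Submodule.mem_sup.2 ⟨pr n s, Submodule.mem_map.2 ⟨s, hs, rfl⟩, t - pr n s, h, ?_⟩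
    abel

theorem ker_mono {n j j' : ℕ} (h : j ≤ j') {v : VV F n} (hv : xx n ^ j * v = 0) :
    xx n ^ j' * v = 0 := by
  obtain ⟨k, rfl⟩ := Nat.exists_eq_add_of_le h
  rw [pow_add, mul_comm (xx n ^ j), mul_assoc, hv, mul_zero]

theorem TT_mono {d d' : DD F} (h1 : d.1.1 ≤ d'.1.1) (h2 : d.1.2 ≤ d'.1.2) (n : ℕ) :
    TT d n ≤ TT d' n := by
  intro t ht
  obtain ⟨s, hs, h⟩ := mem_TT.1 ht
  exact mem_TT.2 ⟨s, h1 hs, ker_mono h2 h⟩

theorem TT_dir (d d' : DD F) : ∃ d'', ∀ n, TT d n ≤ TT d'' n ∧ TT d' n ≤ TT d'' n := by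
  refine ⟨⟨(d.1.1 ⊔ d'.1.1, max d.1.2 d'.1.2), sup_le d.2.1 d'.2.1, d.2.2.sup d'.2.2⟩, fun n =>
    ⟨TT_mono le_sup_left (le_max_left _ _) n, TT_mono le_sup_right (le_max_right _ _) n⟩⟩

/-- Pairs divisible by `X ^ j`. -/
def divP (F : Type) [Field F] (j : ℕ) : Submodule F (F⟦X⟧ × F⟦X⟧) where
  carrier := {m | (X : F⟦X⟧) ^ j ∣ m.1 ∧ (X : F⟦X⟧) ^ j ∣ m.2}
  add_mem' := fun ha hb => ⟨dvd_add ha.1 hb.1, dvd_add ha.2 hb.2⟩
  zero_mem' := ⟨dvd_zero _, dvd_zero _⟩
  smul_mem' := fun c m hm => by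
    constructor
    · simp only [Prod.smul_fst, PowerSeries.smul_eq_C_mul]
      exact Dvd.dvd.mul_left hm.1 _
    · simp only [Prod.smul_snd, PowerSeries.smul_eq_C_mul]
      exact Dvd.dvd.mul_left hm.2 _

theorem enlarge (d : DD F) : ∃ d' : DD F, d.1.1 ≤ d'.1.1 ∧ d.1.2 ≤ d'.1.2 ∧
    (∀ s ∈ d'.1.1, s ∈ divP F d'.1.2 → s = 0) ∧
    (∀ m, ∃ s ∈ d'.1.1, m - s ∈ divP F d'.1.2) := by
  obtain ⟨⟨S, j⟩, hS, hfg⟩ := d
  simp only at hS hfg ⊢
  obtain ⟨N, hN⟩ := fg_sep2 S hfg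
  set j' := max N j with hj'
  let L := lat F
  let a : Submodule F L := S.comap L.subtype
  let b : Submodule F L := (divP F j').comap L.subtype
  have hab : Disjoint a b := by
    rw [Submodule.disjoint_def]
    rintro ⟨x, hx⟩ h1 h2
    have h1' : x ∈ S := h1
    have h2' : (X : F⟦X⟧) ^ j' ∣ x.1 ∧ (X : F⟦X⟧) ^ j' ∣ x.2 := h2
    apply Subtype.ext
    exact hN x h1' ⟨(pow_dvd_pow _ (le_max_left _ _)).trans h2'.1,
      (pow_dvd_pow _ (le_max_left _ _)).trans h2'.2⟩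
  obtain ⟨a', haa', hcompl⟩ := hab.exists_isCompl
  let S' : Submodule F (F⟦X⟧ × F⟦X⟧) := a'.map L.subtype
  have hS'L : S' ≤ L := Submodule.map_subtype_le L a'
  have hSS' : S ≤ S' := fun s hs => Submodule.mem_map.2 ⟨⟨s, hS hs⟩, haa' hs, rfl⟩
  have hinj : ∀ s ∈ S', s ∈ divP F j' → s = 0 := by
    intro s hs hd
    obtain ⟨l, hl, rfl⟩ := Submodule.mem_map.1 hs
    have := (Submodule.disjoint_def.1 hcompl.disjoint) l hl hd
    rw [this]; rfl
  have hspan : ∀ m, ∃ s ∈ S', m - s ∈ divP F j' := by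
    intro m
    obtain ⟨l, hl, h1⟩ := lat_dense j' m
    have : (⟨l, hl⟩ : L) ∈ a' ⊔ b := by
      rw [hcompl.sup_eq_top]; trivial
    obtain ⟨p, hp, r, hr, hpr⟩ := Submodule.mem_sup.1 this
    refine ⟨p, Submodule.mem_map.2 ⟨p, hp, rfl⟩, ?_⟩
    have h2 : m - (p : F⟦X⟧ × F⟦X⟧) = (m - l) + (r : F⟦X⟧ × F⟦X⟧) := by
      have : (p : F⟦X⟧ × F⟦X⟧) + (r : F⟦X⟧ × F⟦X⟧) = l := congrArg Subtype.val hpr
      rw [← this]; abel
    rw [h2]
    exact add_mem h1 hr
  have hfg' : S'.FG := by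
    rw [← Module.Finite.iff_fg]
    let φ : S' →ₗ[F] (Fin j' → F) × (Fin j' → F) :=
      (LinearMap.prod
        (LinearMap.pi fun i : Fin j' => (PowerSeries.coeff (R := F) (i : ℕ)) ∘ₗ LinearMap.fst F _ _)
        (LinearMap.pi fun i : Fin j' => (PowerSeries.coeff (R := F) (i : ℕ)) ∘ₗ LinearMap.snd F _ _))
        ∘ₗ S'.subtype
    refine Module.Finite.of_injective φ ?_
    rw [injective_iff_map_eq_zero]
    rintro ⟨s, hs⟩ h
    apply Subtype.ext
    apply hinj s hs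
    constructor
    · rw [X_pow_dvd_iff]
      intro i hi
      exact congrFun (congrArg Prod.fst h) ⟨i, hi⟩
    · rw [X_pow_dvd_iff]
      intro i hi
      exact congrFun (congrArg Prod.snd h) ⟨i, hi⟩
  exact ⟨⟨(S', j'), hS'L, hfg'⟩, hSS', le_max_right _ _, hinj, hspan⟩

theorem TT_nondeg (d : DD F) : ∃ (d' : DD F) (N : ℕ), ∀ n, N ≤ n → TT d n ≤ TT d' n ∧
      ∀ t ∈ TT d' n, (∀ s ∈ TT d' n, BB n t s = 0) → t = 0 := by
  obtain ⟨d', h1, h2, h3, h4⟩ := enlarge d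
  refine ⟨d', 2 * d'.1.2, fun n hn => ⟨TT_mono h1 h2 n, ?_⟩⟩
  set j := d'.1.2
  intro t ht hperp
  obtain ⟨s, hs, hv⟩ := mem_TT.1 ht
  set v := t - pr n s with hvdef
  have hker : ∀ v' : VV F n, xx n ^ j * v' = 0 → v' ∈ TT d' n := fun v' h =>
    mem_TT.2 ⟨0, zero_mem _, by rw [map_zero, sub_zero]; exact h⟩
  obtain ⟨w, hw⟩ := K1 (n := n) (j := j) (by omega) hv
  have hvv' : ∀ v' : VV F n, xx n ^ j * v' = 0 → v * v' = 0 := by
    intro v' h
    rw [hw, mul_comm (xx n ^ _) w, mul_assoc, ker_mono (by omega) h, mul_zero]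
  have hs0 : s = 0 := by
    apply h3 s hs
    apply K2 (n := n) (by omega)
    intro v' h
    have h5 := hperp v' (hker v' h)
    rw [BB_apply, show t = pr n s + v by rw [hvdef]; abel, add_mul, hvv' v' h, add_zero] at h5
    exact h5
  have htv : t = v := by rw [hvdef, hs0, map_zero, sub_zero]
  rw [htv]
  apply K3
  intro m'
  obtain ⟨m, rfl⟩ := pr_surj n m'
  obtain ⟨s', hs', hm1, hm2⟩ := h4 m
  obtain ⟨f, hf⟩ := hm1
  obtain ⟨g, hg⟩ := hm2
  have hm : pr n m = pr n s' + xx n ^ j * pr n (f, g) := by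
    rw [xx_pow_mul_pr, ← hf, ← hg, ← map_add]
    congr 1
    ext1 <;> simp
  rw [hm, mul_add, ← mul_assoc, mul_comm v (xx n ^ j), hv, zero_mul, add_zero]
  have := hperp (pr n s') (mem_TT.2 ⟨s', hs', by rw [sub_self, mul_zero]⟩)
  rw [htv] at this
  exact this

theorem BB_symm (n : ℕ) (x y : VV F n) : BB n x y = BB n y x := by
  rw [BB_apply, BB_apply, mul_comm]

/-- A self-adjoint sequence mapping each `TT d` into some `TT d'` is admissible. -/
theorem adm_of_selfadj {c : ∀ n, Module.End F (VV F n)}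
    (hsa : ∀ n x y, BB n (c n x) y = BB n x (c n y))
    (h : ∀ d, ∃ (d' : DD F) (N : ℕ), ∀ n, N ≤ n → ∀ t ∈ TT d n, c n t ∈ TT d' n) :
    Adm (fun n => BB (F := F) n) TT c := by
  intro d
  obtain ⟨d', N, h'⟩ := h d
  refine ⟨d', N, fun n hn => ⟨h' n hn, fun v hv t ht => ?_⟩⟩
  rw [← hsa]
  exact hv _ (h' n hn t ht)

/-! ### The operators -/

/-- Multiplication by a power series, at level `n`. -/
def GGn (F : Type) [Field F] (n : ℕ) : F⟦X⟧ →+* Module.End F (VV F n) :=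
  (Algebra.lmul F (VV F n)).toRingHom.comp
    ((pr (F := F) n).toRingHom.comp (RingHom.prod (RingHom.id F⟦X⟧) (RingHom.id F⟦X⟧)))

/-- Multiplication by a power series. -/
def GG (F : Type) [Field F] : F⟦X⟧ →+* (∀ n, Module.End F (VV F n)) :=
  RingHom.pi (fun n => GGn F n)

theorem GG_apply (g : F⟦X⟧) (n : ℕ) (v : VV F n) : GG F g n v = pr n (g, g) * v := rfl

theorem GG_sa (g : F⟦X⟧) (n : ℕ) (x y : VV F n) :
    BB n (GG F g n x) y = BB n x (GG F g n y) := by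
  rw [GG_apply, GG_apply, BB_apply, BB_apply]
  congr 1
  ring

theorem GG_adm {g : F⟦X⟧} (hg : g ∈ ratSub F) : Adm (fun n => BB (F := F) n) TT (GG F g) := by
  apply adm_of_selfadj (GG_sa g)
  intro d
  let φ : (F⟦X⟧ × F⟦X⟧) →ₗ[F] (F⟦X⟧ × F⟦X⟧) := LinearMap.mulLeft F (g, g)
  refine ⟨⟨(d.1.1.map φ, d.1.2), ?_, d.2.2.map _⟩, 0, fun n _ t ht => ?_⟩
  · rintro _ ⟨s, hs, rfl⟩
    exact lat_mul hg (d.2.1 hs)
  · obtain ⟨s, hs, h⟩ := mem_TT.1 ht
    refine mem_TT.2 ⟨φ s, Submodule.mem_map.2 ⟨s, hs, rfl⟩, ?_⟩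
    have e : GG F g n t - pr n (φ s) = pr n (g, g) * (t - pr n s) := by
      rw [GG_apply, mul_sub, ← map_mul]; rfl
    rw [e, mul_left_comm, h, mul_zero]

/-- The invertible modification of multiplication by `X`. -/
def UU (F : Type) [Field F] : ∀ n, Module.End F (VV F n) := fun n =>
  LinearMap.mulLeft F (xx (F := F) n) + (BB n (pr n (eo F))).smulRight (pr n (eo F)) +
    (BB n (pr n (et F))).smulRight (pr n (et F))

theorem UU_apply (n : ℕ) (v : VV F n) : UU F n v = xx n * v +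
    res n (pr n (eo F) * v) • pr n (eo F) + res n (pr n (et F) * v) • pr n (et F) := rfl

theorem UU_sa (n : ℕ) (x y : VV F n) : BB n (UU F n x) y = BB n x (UU F n y) := by
  rw [UU_apply, UU_apply, BB_apply, BB_apply]
  simp only [add_mul, mul_add, map_add, smul_mul_assoc, mul_smul_comm, map_smul, smul_eq_mul]
  rw [show xx n * x * y = x * (xx n * y) by ring, mul_comm x (pr n (eo F)),
    mul_comm x (pr n (et F))]
  ring

theorem UU_inj (n : ℕ) : Function.Injective (UU F n) := by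
  rw [injective_iff_map_eq_zero]
  intro v hv
  obtain ⟨⟨f, g⟩, rfl⟩ := pr_surj n v
  rw [UU_apply] at hv
  set c1 := res n (pr n (eo F) * pr n (f, g)) with hc1
  set c2 := res n (pr n (et F) * pr n (f, g)) with hc2
  rw [xx_mul_pr, ← map_smul, ← map_smul, ← map_add, ← map_add, pr_eq_zero] at hv
  simp only [eo, et, Prod.smul_mk, Prod.mk_add_mk, smul_zero, add_zero] at hv
  have e1 : ∀ (c : F) (f : F⟦X⟧), c • f = C c * f := fun c f => PowerSeries.smul_eq_C_mul f c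
  have hc10 : c1 = 0 := by
    have := (X_pow_dvd_iff.1 hv.1) 0 (by omega)
    rw [map_add, coeff_zero_X_mul, e1, mul_one, coeff_zero_C, zero_add] at this
    exact this
  have hc20 : c2 = 0 := by
    have := (X_pow_dvd_iff.1 hv.2) 0 (by omega)
    rw [hc10, zero_smul, add_zero, map_add, coeff_zero_X_mul, e1, mul_one, coeff_zero_C,
      zero_add] at this
    exact this
  simp only [hc10, hc20, zero_smul, add_zero] at hv
  have hf : (X : F⟦X⟧) ^ n ∣ f := by
    have := X_pow_dvd_X_pow_mul (a := n + 1) (b := 1) (by omega) (by simpa using hv.1)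
    simpa using this
  have hg : (X : F⟦X⟧) ^ (2 * n + 1) ∣ g := by
    have := X_pow_dvd_X_pow_mul (a := 2 * n + 2) (b := 1) (by omega) (by simpa using hv.2)
    exact this
  have hgn : PowerSeries.coeff (2 * n + 1) g = 0 := by
    rw [← hc20, hc2, ← map_mul, res_pr]
    simp [et]
  have hg' : (X : F⟦X⟧) ^ (2 * n + 2) ∣ g := by
    rw [X_pow_dvd_iff]
    intro i hi
    rcases Nat.lt_succ_iff_lt_or_eq.1 hi with h | h
    · exact X_pow_dvd_iff.1 hg i h
    · rw [h]; exact hgn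
  have hfn : PowerSeries.coeff n f = 0 := by
    have h1 : c1 = PowerSeries.coeff n f + PowerSeries.coeff (2 * n + 1) (- lac F * g) := by
      rw [hc1, ← map_mul, res_pr]
      simp [eo]
    rw [hc10, (X_pow_dvd_iff.1 (Dvd.dvd.mul_left hg' (- lac F))) (2 * n + 1) (by omega),
      add_zero] at h1
    exact h1.symm
  rw [pr_eq_zero]
  refine ⟨?_, hg'⟩
  rw [X_pow_dvd_iff]
  intro i hi
  rcases Nat.lt_succ_iff_lt_or_eq.1 hi with h | h
  · exact X_pow_dvd_iff.1 hf i h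
  · rw [h]; exact hfn

/-- `UU n` as a linear equivalence. -/
def UE (n : ℕ) : VV F n ≃ₗ[F] VV F n := LinearEquiv.ofInjectiveEndo (UU F n) (UU_inj n)

/-- The inverse. -/
def WW (F : Type) [Field F] : ∀ n, Module.End F (VV F n) := fun n => (UE n).symm.toLinearMap

theorem UU_WW (n : ℕ) (v : VV F n) : UU F n (WW F n v) = v := (UE n).apply_symm_apply v

theorem WW_UU (n : ℕ) (v : VV F n) : WW F n (UU F n v) = v := (UE n).symm_apply_apply v

theorem UU_mul_WW : UU F * WW F = 1 := by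
  funext n; exact LinearMap.ext fun v => UU_WW n v

theorem WW_mul_UU : WW F * UU F = 1 := by
  funext n; exact LinearMap.ext fun v => WW_UU n v

theorem WW_sa (n : ℕ) (x y : VV F n) : BB n (WW F n x) y = BB n x (WW F n y) := by
  have := UU_sa n (WW F n x) (WW F n y)
  rw [UU_WW, UU_WW] at this
  exact this.symm

theorem WW_eo (n : ℕ) : WW F n (pr n (eo F)) = pr n (X ^ n, 0) := by
  have : UU F n (pr n (X ^ n, 0)) = pr n (eo F) := by
    rw [UU_apply, xx_mul_pr, ← map_mul, ← map_mul, res_pr, res_pr]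
    have h0 : pr n ((X : F⟦X⟧) * X ^ n, (X : F⟦X⟧) * 0) = 0 := by
      rw [pr_eq_zero]; exact ⟨by rw [pow_succ'], by simp⟩
    rw [h0]
    simp [eo, et]
  rw [← this, WW_UU]

theorem WW_et (n : ℕ) : WW F n (pr n (et F)) = pr n (0, X ^ (2 * n + 1)) := by
  have : UU F n (pr n (0, X ^ (2 * n + 1))) = pr n (et F) := by
    rw [UU_apply, xx_mul_pr, ← map_mul, ← map_mul, res_pr, res_pr]
    have h0 : pr n ((X : F⟦X⟧) * 0, (X : F⟦X⟧) * X ^ (2 * n + 1)) = 0 := by
      rw [pr_eq_zero]; exact ⟨by simp, by rw [← pow_succ']⟩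
    have h1 : PowerSeries.coeff (2 * n + 1) (lac F * X ^ (2 * n + 1)) = 0 := by
      rw [coeff_mul_X_pow', if_pos le_rfl, Nat.sub_self, coeff_zero_eq_constantCoeff_apply,
        lac_const]
    rw [h0]
    simp [eo, et, h1]
  rw [← this, WW_UU]

/-- Action of `WW` on `xx * y`. -/
theorem WW_xx (n : ℕ) (y : VV F n) : WW F n (xx n * y) =
    y - res n (pr n (eo F) * y) • pr n (X ^ n, 0) -
      res n (pr n (et F) * y) • pr n (0, X ^ (2 * n + 1)) := by
  have h := WW_UU n y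
  rw [UU_apply, map_add, map_add, map_smul, map_smul, WW_eo, WW_et] at h
  rw [eq_sub_iff_add_eq, eq_sub_iff_add_eq]
  rw [add_right_comm] at h
  exact h

theorem xx_k1 (n : ℕ) : xx n * pr n ((X : F⟦X⟧) ^ n, 0) = 0 := by
  rw [xx_mul_pr, pr_eq_zero]; exact ⟨by rw [pow_succ'], by simp⟩

theorem xx_k2 (n : ℕ) : xx n * pr n (0, (X : F⟦X⟧) ^ (2 * n + 1)) = 0 := by
  rw [xx_mul_pr, pr_eq_zero]; exact ⟨by simp, by rw [← pow_succ']⟩

theorem WW_adm : Adm (fun n => BB (F := F) n) TT (WW F) := by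
  apply adm_of_selfadj WW_sa
  intro d
  set j := d.1.2 with hj
  refine ⟨⟨(d.1.1.map dv, j + 1), ?_, d.2.2.map _⟩, j + 1, fun n hn t ht => ?_⟩
  · rintro _ ⟨s, hs, rfl⟩
    exact dv_mem (d.2.1 hs)
  · obtain ⟨s, hs, h⟩ := mem_TT.1 ht
    set v := t - pr n s with hv
    -- v = xx * y
    obtain ⟨w, hw⟩ := K1 (n := n) (j := j) (by omega) h
    have hvy : v = xx n * (xx n ^ (n - j) * w) := by
      rw [hw, ← mul_assoc, ← pow_succ']
      congr 2
      omega
    set y := xx n ^ (n - j) * w with hy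
    have hyk : xx n ^ (j + 1) * y = 0 := by
      rw [pow_succ, mul_assoc, ← hvy]; exact h
    have hk1 : xx n ^ (j + 1) * pr n ((X : F⟦X⟧) ^ n, 0) = 0 := by
      rw [pow_succ, mul_assoc, xx_k1, mul_zero]
    have hk2 : xx n ^ (j + 1) * pr n (0, (X : F⟦X⟧) ^ (2 * n + 1)) = 0 := by
      rw [pow_succ, mul_assoc, xx_k2, mul_zero]
    refine mem_TT.2 ⟨dv s, Submodule.mem_map.2 ⟨s, hs, rfl⟩, ?_⟩
    simp only
    have ht' : t = PowerSeries.constantCoeff s.1 • pr n (eo F)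
        + PowerSeries.constantCoeff s.2 • pr n (et F) + xx n * (pr n (dv s)) + xx n * y := by
      rw [← hvy, hv, xx_mul_pr, ← map_smul, ← map_smul, ← map_add, ← map_add, ← dv_spec s]
      abel
    rw [ht', map_add, map_add, map_add, map_smul, map_smul, WW_eo, WW_et, WW_xx, WW_xx]
    simp only [mul_sub, mul_add, mul_smul_comm, hk1, hk2, hyk, smul_zero, sub_zero, add_zero,
      zero_add, sub_self]

theorem UU_sub_small : Small (fun n => BB (F := F) n) TT (UU F - GG F X) := by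
  refine ⟨⟨(Submodule.span F {eo F, et F}, 0), ?_, ?_⟩, 0, fun n _ => ⟨fun v => ?_, fun v hv => ?_⟩⟩
  · rw [Submodule.span_le]
    rintro x (rfl | rfl)
    · exact eo_mem
    · exact et_mem
  · exact Submodule.fg_span (by simp)
  · have e : (UU F - GG F X) n v = res n (pr n (eo F) * v) • pr n (eo F) +
        res n (pr n (et F) * v) • pr n (et F) := by
      change UU F n v - GG F X n v = _
      rw [UU_apply, GG_apply]
      change xx n * v + _ + _ - xx n * v = _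
      abel
    rw [e]
    refine mem_TT.2 ⟨res n (pr n (eo F) * v) • (eo F) +
        res n (pr n (et F) * v) • (et F), ?_, ?_⟩
    · refine add_mem (Submodule.smul_mem _ _ (Submodule.subset_span (by simp)))
        (Submodule.smul_mem _ _ (Submodule.subset_span (by simp)))
    · rw [map_add, map_smul, map_smul, sub_self, mul_zero]
  · have e : (UU F - GG F X) n v = res n (pr n (eo F) * v) • pr n (eo F) +
        res n (pr n (et F) * v) • pr n (et F) := by
      change UU F n v - GG F X n v = _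
      rw [UU_apply, GG_apply]
      change xx n * v + _ + _ - xx n * v = _
      abel
    rw [e]
    have h1 := hv (pr n (eo F)) (mem_TT.2 ⟨eo F, Submodule.subset_span (by simp), by
      rw [sub_self, mul_zero]⟩)
    have h2 := hv (pr n (et F)) (mem_TT.2 ⟨et F, Submodule.subset_span (by simp), by
      rw [sub_self, mul_zero]⟩)
    rw [BB_apply] at h1 h2
    rw [h1, h2, zero_smul, zero_smul, add_zero]

end

end Pool.Agent.Helper20
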