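import Mathlib
import Pool.Agent.Helper20.URE

namespace Pool.Agent.Helper20

open PowerSeries

noncomputable section

theorem exists_rep {F V : Type*} [Field F] [AddCommGroup V] [Module F V] [FiniteDimensional F V]
    (B : LinearMap.BilinForm F V) (T : Submodule F V) (φ : Module.Dual F V)
    (h : ∀ v, (∀ t ∈ T, B t v = 0) → φ v = 0) : ∃ t ∈ T, ∀ v, φ v = B t v := by
  have h1 : φ ∈ ((T.map B).dualCoannihilator).dualAnnihilator := by
    rw [Submodule.mem_dualAnnihilator]
    intro v hv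
    apply h
    intro t ht
    rw [Submodule.mem_dualCoannihilator] at hv
    exact hv (B t) (Submodule.mem_map.2 ⟨t, ht, rfl⟩)
  rw [Subspace.dualCoannihilator_dualAnnihilator_eq] at h1
  obtain ⟨t, ht, rfl⟩ := Submodule.mem_map.1 h1
  exact ⟨t, ht, fun v => rfl⟩

/-- Key finite-level lemma, in an abstract algebra. -/
theorem fixN {F V : Type*} [Field F] [CommRing V] [Algebra F V] [FiniteDimensional F V]
    {n : ℕ} (hn : 1 ≤ n) (x e : V) (r : V →ₗ[F] F)
    (A1 : ∀ i, i ≤ n + 1 → ∀ v, x ^ i * v = 0 → ∃ u, v = x ^ (n + 1 - i) * u)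
    (A2 : ∀ v, x ^ (n + 1) * v = 0 → ∃ y, v = r ((x ^ n * v) * e) • e + x * y)
    (A3 : ∀ v, (∀ u, r (v * u) = 0) → v = 0)
    (A4 : ∀ t, (∀ v, x * v = 0 → r (t * v) = 0) → ∃ y, t = x * y)
    (w : Module.End F V)
    (hgood : ∀ k, 1 ≤ k → ∀ v, x ^ k * (w ^ k) (x ^ k * v) = x ^ k * v)
    (T : Submodule F V) (hr : ∀ v, v - x * w v ∈ T)
    (hr' : ∀ v, (∀ t ∈ T, r (t * v) = 0) → v - w (x * v) = 0) :
    ∃ t ∈ T, (∃ y, t = e + x * y) ∧ x ^ (n + 1) * t = 0 := by
  have h1 : ∀ v, x * w (x * v) = x * v := by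
    intro v
    have := hgood 1 le_rfl v
    simpa using this
  have hρ' : ∀ v, x * (v - w (x * v)) = 0 := by
    intro v; rw [mul_sub, h1, sub_self]
  have step1 : ∀ i, i ≤ n → ∀ v, x ^ i * v = 0 → x ^ (i + 1) * w v = 0 := by
    intro i hi v hv
    obtain ⟨w0, hw0⟩ := A1 i (by omega) v hv
    have e : v = x * (x ^ (n - i) * w0) := by
      rw [hw0, ← mul_assoc, ← pow_succ']
      congr 2; omega
    rw [e, pow_succ, mul_assoc, h1, ← e, hv]
  have step2 : ∀ i, i ≤ n → ∀ k, x * k = 0 → x ^ (i + 1) * (w ^ i) k = 0 := by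
    intro i
    induction i with
    | zero => intro _ k hk; simpa using hk
    | succ i ih =>
      intro hi k hk
      rw [pow_succ' w, Module.End.mul_apply]
      exact step1 (i + 1) hi _ (ih (by omega) k hk)
  have step4 : ∀ k, x * k = 0 → ∃ y, (w ^ n) k = r (k * e) • e + x * y := by
    intro k hk
    obtain ⟨k', hk'⟩ := A1 1 (by omega) k (by simpa using hk)
    rw [Nat.add_sub_cancel] at hk'
    have h3 : x ^ n * (w ^ n) k = k := by
      have := hgood n hn k'
      rw [← hk'] at this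
      exact this
    obtain ⟨y, hy⟩ := A2 _ (step2 n le_rfl k hk)
    rw [h3] at hy
    exact ⟨y, hy⟩
  have claim2 : ∀ i, i ≤ n → ∀ z, ∃ y, (w ^ i) (x ^ (i + 1) * z) = x * y := by
    intro i
    induction i with
    | zero => intro _ z; exact ⟨z, by simp⟩
    | succ i ih =>
      intro hi z
      obtain ⟨y, hy⟩ := ih (by omega) z
      have e1 : (w ^ (i + 1)) (x ^ (i + 1 + 1) * z) =
          (w ^ i) (w (x * (x ^ (i + 1) * z))) := by
        rw [pow_succ w, Module.End.mul_apply, ← mul_assoc, ← pow_succ']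
      set k := x ^ (i + 1) * z - w (x * (x ^ (i + 1) * z)) with hk
      have hk0 : x * k = 0 := hρ' _
      have e2 : w (x * (x ^ (i + 1) * z)) = x ^ (i + 1) * z - k := by
        rw [hk]; abel
      obtain ⟨w0, hw0⟩ := A1 (i + 1) (by omega) _ (step2 i (by omega) k hk0)
      refine ⟨y - x ^ (n - (i + 1)) * w0, ?_⟩
      rw [e1, e2, map_sub, hy, hw0, mul_sub, ← mul_assoc, ← pow_succ']
      congr 3
      omega
  have step6 : ∀ z, r ((x ^ (n + 1) * z - w (x * (x ^ (n + 1) * z))) * e) •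
      (x ^ (n + 1) * (e - x * w e)) = 0 := by
    intro z
    set k := x ^ (n + 1) * z - w (x * (x ^ (n + 1) * z)) with hk
    have hk0 : x * k = 0 := hρ' _
    obtain ⟨y, hy⟩ := step4 k hk0
    set q := (w ^ (n + 1)) (x ^ (n + 1 + 1) * z) with hq
    have hq1 : x ^ (n + 1) * q = x ^ (n + 1 + 1) * z := by
      rw [hq, pow_succ x (n + 1), mul_assoc]
      exact hgood (n + 1) (by omega) (x * z)
    have hq2 : x ^ (n + 1) * (x * w q) = x ^ (n + 1 + 1) * z := by
      have := hgood (n + 1 + 1) (by omega) z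
      rw [pow_succ' w (n + 1), Module.End.mul_apply, ← hq] at this
      rw [← this, ← mul_assoc, ← pow_succ]
    have hq3 : x ^ (n + 1) * (q - x * w q) = 0 := by
      rw [mul_sub, hq1, hq2, sub_self]
    have hq4 : q = (w ^ n) (x ^ (n + 1) * z) - (w ^ n) k := by
      rw [← map_sub, hq, pow_succ w n, Module.End.mul_apply, hk, sub_sub_cancel, ← mul_assoc,
        ← pow_succ']
    obtain ⟨z', hz⟩ := claim2 n le_rfl z
    have hq5 : q - x * w q = - (r (k * e) • (e - x * w e)) := by
      rw [hq4, hz, hy]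
      simp only [map_sub, map_add, map_smul, mul_sub, mul_add, mul_smul_comm, smul_sub]
      rw [h1 z', h1 y]
      abel
    rw [hq5, mul_neg, neg_eq_zero, mul_smul_comm] at hq3
    exact hq3
  by_cases hA : x ^ (n + 1) * (e - x * w e) = 0
  · exact ⟨_, hr _, ⟨- w e, by ring⟩, hA⟩
  · have hB : ∀ z, r ((x ^ (n + 1) * z - w (x * (x ^ (n + 1) * z))) * e) = 0 := by
      intro z
      rcases smul_eq_zero.1 (step6 z) with h | h
      · exact h
      · exact absurd h hA
    let φ : Module.Dual F V := r ∘ₗ (LinearMap.mulLeft F e) ∘ₗ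
      (LinearMap.id - w ∘ₗ LinearMap.mulLeft F x)
    have hφ : ∀ v, φ v = r (e * (v - w (x * v))) := fun v => rfl
    obtain ⟨t, htT, ht⟩ := exists_rep ((LinearMap.mul F V).compr₂ r) T φ (by
      intro v hv
      rw [hφ, hr' v hv, mul_zero, map_zero])
    have ht' : ∀ v, φ v = r (t * v) := ht
    refine ⟨t, htT, ?_, ?_⟩
    · obtain ⟨y, hy⟩ := A4 (t - e) (by
        intro v hv
        have h5 := ht' v
        rw [hφ, hv, map_zero, sub_zero] at h5
        rw [sub_mul, map_sub, ← h5, sub_self])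
      exact ⟨y, by rw [← hy]; abel⟩
    · apply A3
      intro z
      have h5 := ht' (x ^ (n + 1) * z)
      rw [hφ, mul_comm e, hB z] at h5
      rw [h5]
      congr 1
      ring

end

end Pool.Agent.Helper20
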