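import Mathlib
import Pool.Agent.Helper20.URB2
import Pool.Agent.Helper20.URF

namespace Pool.Agent.Helper20

open PowerSeries

noncomputable section

variable {F : Type} [Field F]

/-- Concrete instance of the finite-level lemma. -/
theorem fixVV {n : ℕ} (hn : 1 ≤ n) (w : Module.End F (VV F n))
    (hgood : ∀ k, 1 ≤ k → ∀ v : VV F n, xx n ^ k * (w ^ k) (xx n ^ k * v) = xx n ^ k * v)
    (T : Submodule F (VV F n)) (hr : ∀ v : VV F n, v - xx n * w v ∈ T)
    (hr' : ∀ v : VV F n, (∀ t ∈ T, BB n t v = 0) → v - w (xx n * v) = 0) :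
    ∃ t ∈ T, (∃ y : VV F n, t = pr n ((1 : F⟦X⟧), (0 : F⟦X⟧)) + xx n * y) ∧
      xx n ^ (n + 1) * t = 0 := by
  refine fixN hn (xx n) (pr n ((1 : F⟦X⟧), (0 : F⟦X⟧))) (res n) ?_ ?_ ?_ ?_ w hgood T hr hr'
  · intro i hi v hv
    exact K1 hi hv
  · intro v hv
    obtain ⟨⟨f, g⟩, rfl⟩ := pr_surj n v
    rw [xx_pow_mul_pr, pr_eq_zero] at hv
    obtain ⟨g', hg'⟩ := (dvd_pow_self (X : F⟦X⟧) (show 2 * n + 2 - (n + 1) ≠ 0 by omega)).trans
      (X_pow_dvd_X_pow_mul (by omega) hv.2)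
    have h4 : res n (xx n ^ n * pr n (f, g) * pr n ((1 : F⟦X⟧), (0 : F⟦X⟧))) =
        PowerSeries.constantCoeff f := by
      rw [xx_pow_mul_pr, ← map_mul, res_pr]
      simp only [Prod.mul_def, mul_one, mul_zero, map_zero, add_zero]
      rw [coeff_X_pow_mul', if_pos le_rfl, Nat.sub_self, coeff_zero_eq_constantCoeff_apply]
    refine ⟨pr n (shiftOne f, g'), ?_⟩
    rw [h4, xx_mul_pr, ← map_smul, ← map_add]
    congr 1
    ext1
    · simp only [Prod.smul_mk, Prod.mk_add_mk, PowerSeries.smul_eq_C_mul, mul_one]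
      exact shiftOne_spec f
    · simp only [Prod.smul_mk, Prod.mk_add_mk, smul_zero, zero_add]
      exact hg'
  · intro v hv
    exact K3 hv
  · intro t ht
    obtain ⟨s, rfl⟩ := pr_surj n t
    obtain ⟨⟨f, hf⟩, ⟨g, hg⟩⟩ := K2 (n := n) (j := 1) (by omega) (s := s) (by
      intro v hv
      rw [pow_one] at hv
      exact ht v hv)
    refine ⟨pr n (f, g), ?_⟩
    rw [xx_mul_pr]
    congr 1
    rw [pow_one] at hf hg
    rw [← hf, ← hg]

theorem GG_X_pow (k n : ℕ) (v : VV F n) : ((GG F X) ^ k) n v = xx n ^ k * v := by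
  rw [← map_pow, GG_apply, xx, ← map_pow]
  rfl

/-- No admissible `w` works for all powers. -/
theorem no_good (w : ∀ n, Module.End F (VV F n))
    (h1 : Small (fun n => BB (F := F) n) TT (1 - GG F X * w))
    (h2 : Small (fun n => BB (F := F) n) TT (1 - w * GG F X))
    (hgood : ∀ k, 1 ≤ k → (GG F X) ^ k * w ^ k * (GG F X) ^ k = (GG F X) ^ k) : False := by
  obtain ⟨d1, N1, h1⟩ := h1
  obtain ⟨d2, N2, h2⟩ := h2
  obtain ⟨d, hd⟩ := TT_dir d1 d2
  obtain ⟨⟨S, j⟩, hSL, hSfg⟩ := d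
  simp only at hSL hSfg
  obtain ⟨N3, h3⟩ := fg_sep (S.map (LinearMap.snd F F⟦X⟧ F⟦X⟧)) (hSfg.map _)
  obtain ⟨n, hn1, hn2, hn3, hnj, hn⟩ : ∃ n, N1 ≤ n ∧ N2 ≤ n ∧ N3 ≤ n ∧ j ≤ n ∧ 1 ≤ n :=
    ⟨N1 + N2 + N3 + j + 1, by omega, by omega, by omega, by omega, by omega⟩
  have g1 := h1 n hn1
  have g2 := h2 n hn2
  obtain ⟨t, htT, ⟨y, hy⟩, ht⟩ := fixVV hn (w n) (by
      intro k hk v
      have := congrArg (fun f : ∀ n, Module.End F (VV F n) => f n v) (hgood k hk)
      simp only [Pi.mul_apply, Module.End.mul_apply] at this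
      rw [GG_X_pow, GG_X_pow, Pi.pow_apply] at this
      exact this)
    (TT ⟨(S, j), hSL, hSfg⟩ n) (by
      intro v
      have := g1.1 v
      have e : (1 - GG F X * w) n v = v - xx n * w n v := by
        change v - GG F X n (w n v) = _
        rw [GG_apply]; rfl
      rw [e] at this
      exact (hd n).1 this) (by
      intro v hv
      have := g2.2 v (fun t ht => hv t ((hd n).2 ht))
      have e : (1 - w * GG F X) n v = v - w n (xx n * v) := by
        change v - w n (GG F X n v) = _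
        rw [GG_apply]; rfl
      rw [e] at this
      exact this)
  obtain ⟨s, hs, hsv⟩ := mem_TT.1 htT
  simp only at hs hsv
  obtain ⟨w0, hw0⟩ := K1 (n := n) (j := j) (by omega) hsv
  have hx : t - pr n s = xx n * (xx n ^ (n - j) * w0) := by
    rw [hw0, ← mul_assoc, ← pow_succ']
    congr 2; omega
  obtain ⟨⟨f, g⟩, hfg⟩ := pr_surj n (y - xx n ^ (n - j) * w0)
  -- constant coefficient of `s.1`
  have hs1 : pr n (s - ((1 : F⟦X⟧), (0 : F⟦X⟧)) - (X * f, X * g)) = 0 := by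
    have e := xx_mul_pr n (f, g)
    simp only at e
    rw [map_sub, map_sub, ← e, hfg, mul_sub, ← hx, hy]
    abel
  rw [pr_eq_zero] at hs1
  have hs1' := X_pow_dvd_iff.1 hs1.1 0 (by omega)
  have hne : s.1 ≠ 0 := by
    intro h0
    simp only [Prod.fst_sub, h0, zero_sub, map_sub, map_neg, coeff_zero_X_mul, sub_zero,
      coeff_zero_one, neg_eq_zero, one_ne_zero] at hs1'
  -- second coordinate is divisible
  have hs2 : xx n ^ (n + 1) * pr n s = 0 := by
    have e : pr n s = t - (t - pr n s) := by abel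
    rw [e, mul_sub, ht, ker_mono (by omega) hsv, sub_zero]
  rw [xx_pow_mul_pr, pr_eq_zero] at hs2
  have hs3 : (X : F⟦X⟧) ^ (n + 1) ∣ s.2 := by
    have := X_pow_dvd_X_pow_mul (a := 2 * n + 2) (b := n + 1) (by omega) hs2.2
    rwa [show 2 * n + 2 - (n + 1) = n + 1 by omega] at this
  have hs4 : s.2 = 0 := h3 s.2 (Submodule.mem_map.2 ⟨s, hs, rfl⟩)
    ((pow_dvd_pow _ (by omega)).trans hs3)
  exact lat_snd_ne (hSL hs) hne hs4

/-! ### The ring -/

/-- Rational power series act. -/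
def GO (F : Type) [Field F] : ratSub F →+* (∀ n, Module.End F (VV F n)) :=
  (GG F).comp (ratSub F).subtype

/-- The variable as a rational power series. -/
def XO (F : Type) [Field F] : ratSub F := ⟨X, ratSub_X⟩

theorem GO_XO : GO F (XO F) = GG F X := rfl

theorem exists_eq_X_pow_mul (g : F⟦X⟧) (hg0 : g ≠ 0) :
    ∃ (l : ℕ) (f : F⟦X⟧), g = X ^ l * f ∧ PowerSeries.constantCoeff f ≠ 0 := by
  classical
  have hex : ∃ i, PowerSeries.coeff i g ≠ 0 := by
    by_contra hcon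
    push Not at hcon
    exact hg0 (by ext i; rw [hcon i, map_zero])
  set l := Nat.find hex with hl
  have h1 : (X : F⟦X⟧) ^ l ∣ g := by
    rw [X_pow_dvd_iff]
    intro m hm
    by_contra h
    exact Nat.find_min hex hm h
  obtain ⟨f, hf⟩ := h1
  refine ⟨l, f, hf, ?_⟩
  have h2 := Nat.find_spec hex
  rw [← hl, hf, coeff_X_pow_mul', if_pos le_rfl, Nat.sub_self,
    coeff_zero_eq_constantCoeff_apply] at h2
  exact h2

theorem ratSub_factor (g : ratSub F) (hg : g ≠ 0) :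
    ∃ (l : ℕ) (g' g'' : ratSub F), g' * g'' = 1 ∧ g = XO F ^ l * g' := by
  have hg0 : (g : F⟦X⟧) ≠ 0 := fun h => hg (Subtype.ext h)
  obtain ⟨l, f, hf, hfc⟩ := exists_eq_X_pow_mul (g : F⟦X⟧) hg0
  have hfO : f ∈ ratSub F := by
    have : ∀ (l : ℕ) (f : F⟦X⟧), X ^ l * f ∈ ratSub F → f ∈ ratSub F := by
      intro l
      induction l with
      | zero => intro f hf; simpa using hf
      | succ l ih =>
        intro f hf
        rw [pow_succ, mul_assoc] at hf
        exact ratSub_div_X (ih _ hf)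
    exact this l f (hf ▸ g.2)
  have hfi : f * f⁻¹ = 1 := PowerSeries.mul_inv_cancel f hfc
  have hf0 : f ≠ 0 := by
    rintro rfl
    simp at hfc
  have hfiO : f⁻¹ ∈ ratSub F := ratSub_cancel hfO hf0 (by rw [hfi]; exact one_mem _)
  exact ⟨l, ⟨f, hfO⟩, ⟨f⁻¹, hfiO⟩, Subtype.ext hfi, Subtype.ext hf⟩

/-- Main theorem. -/
theorem unit_regular_counterexample :
    ∃ (R : Type) (_ : Ring R), (∀ x : R, ∃ u : Rˣ, x * u * x = x) ∧
      ∃ a : R, ∀ w : R, ∃ k : ℕ, 1 ≤ k ∧ a ^ k * w ^ k * a ^ k ≠ a ^ k := by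
  obtain ⟨R, h1, h2⟩ := germ_final (F := ℚ) (V := VV ℚ) (fun n => BB n) (D := DD ℚ) TT TT_dir
    (fun n => BB_symm n) TT_nondeg (O := ratSub ℚ) (GO ℚ) (fun g => GG_adm g.2) (XO ℚ) (UU ℚ)
    (WW ℚ) UU_mul_WW WW_mul_UU WW_adm UU_sub_small ratSub_factor no_good
  exact ⟨R, inferInstance, h1, h2⟩

end

end Pool.Agent.Helper20
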